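import Pool.Agent.R847.Gap.Core
import Pool.Agent.R847.Gap.Emb

set_option autoImplicit false

/-! The gap principle over the complex numbers. -/

namespace Pool.Agent.R847.Gap

open MvPolynomial Pool.Agent.H936R2

section

variable {K : Type} [NormedField K] [IsUltrametricDist K]

/-- Polynomials with integral coefficients come from the ring of integers. -/
lemma exists_lift {ι : Type} (P : MvPolynomial ι K) (h : ∀ κ, ‖P.coeff κ‖ ≤ 1) :
    ∃ Q : MvPolynomial ι (unitBall K), map (unitBall K).subtype Q = P := by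
  classical
  refine ⟨∑ κ ∈ P.support, monomial κ ⟨P.coeff κ, h κ⟩, ?_⟩
  rw [map_sum]
  conv_rhs => rw [P.as_sum]
  apply Finset.sum_congr rfl
  intro κ _
  rw [map_monomial]
  rfl

end

section

variable {ι : Type} [Fintype ι] [DecidableEq ι] (p : ℕ) [hp : Fact p.Prime]

/-- If the orbit of a point of the same residue class is eventually etale then so is the orbit. -/
lemma unit_transfer (F : ι → MvPolynomial ι (unitBall (PadicAlgCl p)))
    (b y : ι → unitBall (PadicAlgCl p)) (n0 m : ℕ)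
    (hres : ∀ i, res (PadicAlgCl p) (y i) = res (PadicAlgCl p) ((pt F)^[n0] b i))
    (hdet : ∀ n, m ≤ n → IsUnit (jac F ((pt F)^[n] y)).det) :
    ∀ n, n0 + m ≤ n → IsUnit (jac F ((pt F)^[n] b)).det := by
  intro n hn
  obtain ⟨l, rfl⟩ : ∃ l, n = l + n0 := ⟨n - n0, by omega⟩
  have h1 := hdet l (by omega)
  apply isUnit_of_res_ne_zero
  have h2 := pt_map (res (PadicAlgCl p)) F y l
  have h3 := pt_map (res (PadicAlgCl p)) F ((pt F)^[n0] b) l
  have h4 : (fun i => res (PadicAlgCl p) (y i)) =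
      fun i => res (PadicAlgCl p) ((pt F)^[n0] b i) := funext hres
  rw [h4, h3, ← Function.iterate_add_apply] at h2
  have h5 := jac_map (res (PadicAlgCl p)) F ((pt F)^[l] y)
  have h6 := jac_map (res (PadicAlgCl p)) F ((pt F)^[l + n0] b)
  rw [h2, h5] at h6
  rw [RingHom.map_det, ← h6, ← RingHom.map_det]
  exact (h1.map (res (PadicAlgCl p))).ne_zero

end

section

variable {ι : Type} [Fintype ι] [DecidableEq ι]

/-- The gap principle for a polynomial self-map of affine space over `ℂ`. -/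
theorem affine_gap (f : ι → MvPolynomial ι ℂ) (S : Set (MvPolynomial ι ℂ)) (E : Set (ι → ℂ))
    (hEfin : E.Finite)
    (hE : ∀ z : ι → ℂ, (∃ m, 0 < m ∧ ∀ t : ℕ, ∀ g ∈ S, eval ((pt f)^[m * t] z) g = 0) →
      z ∈ E ∧ ∃ n₀, ∀ n, n₀ ≤ n → (jac f ((pt f)^[n] z)).det ≠ 0) (a : ι → ℂ) :
    (∃ T : Finset (ℕ × ℕ), {n : ℕ | ∀ g ∈ S, eval ((pt f)^[n] a) g = 0} =
      {n : ℕ | ∃ q ∈ T, ∃ m : ℕ, n = q.1 * m + q.2}) ∨
    ExpSparse {n : ℕ | ∀ g ∈ S, eval ((pt f)^[n] a) g = 0} := by
  classical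
  -- the trapped points
  let Tr : Set (ι → ℂ) := {z | ∃ m, 0 < m ∧ ∀ t : ℕ, ∀ g ∈ S, eval ((pt f)^[m * t] z) g = 0}
  have hTrfin : Tr.Finite := hEfin.subset fun z hz => (hE z hz).1
  -- their orbits
  have horbfin : ∀ z ∈ Tr, (Set.range fun n => (pt f)^[n] z).Finite := by
    rintro z ⟨m, hm, hz⟩
    have h1 : ∀ t, (pt f)^[m * t] z ∈ Tr := by
      intro t
      refine ⟨m, hm, fun s g hg => ?_⟩
      rw [← Function.iterate_add_apply, ← Nat.mul_add]
      exact hz _ g hg
    apply (Set.Finite.biUnion (Finset.finite_toSet (Finset.range m))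
      (t := fun i => (pt f)^[i] '' Tr) fun i _ => hTrfin.image _).subset
    rintro _ ⟨n, rfl⟩
    rw [Set.mem_iUnion₂]
    refine ⟨n % m, by simpa using Nat.mod_lt _ hm, (pt f)^[m * (n / m)] z, h1 _, ?_⟩
    rw [← Function.iterate_add_apply, Nat.mod_add_div]
  let U : Set (ι → ℂ) := ⋃ z ∈ Tr, Set.range fun n => (pt f)^[n] z
  have hU : U.Finite := Set.Finite.biUnion hTrfin horbfin
  -- the finite set of numbers
  let s1 : Set ℂ := ⋃ i, (fun κ => (f i).coeff κ) '' ((f i).support : Set (ι →₀ ℕ))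
  let s2 : Set ℂ := Set.range a
  let s3 : Set ℂ := ⋃ i : ι, (fun v : ι → ℂ => v i) '' U
  let s4 : Set ℂ := (fun v : ι → ℂ => ((jac f v).det)⁻¹) '' U
  have hs : (s1 ∪ s2 ∪ s3 ∪ s4).Finite := by
    refine (((Set.finite_iUnion fun i => ((f i).support.finite_toSet).image _).union
      (Set.finite_range a)).union (Set.finite_iUnion fun i => hU.image _)).union (hU.image _)
  obtain ⟨N₀, hN₀⟩ := emb_finite hs.toFinset
  obtain ⟨p, hpN, hp⟩ := Nat.exists_infinite_primes (N₀ + 1)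
  have : Fact p.Prime := ⟨hp⟩
  obtain ⟨τ, hτ⟩ := hN₀ p (by omega)
  have hτ' : ∀ x ∈ s1 ∪ s2 ∪ s3 ∪ s4, ‖τ x‖ ≤ 1 := fun x hx => hτ x (hs.mem_toFinset.2 hx)
  -- lifts
  have hcoeff : ∀ i κ, ‖(map (τ : ℂ →+* PadicAlgCl p) (f i)).coeff κ‖ ≤ 1 := by
    intro i κ
    rw [coeff_map]
    by_cases h : κ ∈ (f i).support
    · apply hτ'
      left; left; left
      rw [Set.mem_iUnion]
      exact ⟨i, κ, h, rfl⟩
    · rw [notMem_support_iff.1 h, map_zero, norm_zero]
      exact zero_le_one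
  choose F hF using fun i => exists_lift _ (hcoeff i)
  let b : ι → unitBall (PadicAlgCl p) := fun i => ⟨τ (a i), hτ' _ (by
    left; left; right; exact ⟨i, rfl⟩)⟩
  have hmap : ∀ (x : ι → unitBall (PadicAlgCl p)) (z : ι → ℂ), (∀ i, (x i : PadicAlgCl p) = τ (z i)) →
      ∀ n i, (((pt F)^[n] x i : unitBall (PadicAlgCl p)) : PadicAlgCl p) = τ ((pt f)^[n] z i) := by
    intro x z hxz n i
    have e1 := pt_map (unitBall (PadicAlgCl p)).subtype F x n
    have e2 := pt_map (τ : ℂ →+* PadicAlgCl p) f z n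
    have e3 : (fun i => (unitBall (PadicAlgCl p)).subtype (x i)) =
        fun i => (τ : ℂ →+* PadicAlgCl p) (z i) := funext hxz
    have e4 : (fun i => map (unitBall (PadicAlgCl p)).subtype (F i)) =
        fun i => map (τ : ℂ →+* PadicAlgCl p) (f i) := funext hF
    rw [e3, e4, e2] at e1
    exact (congrFun e1 i).symm
  have hev : ∀ (z : ι → ℂ) (g : MvPolynomial ι ℂ),
      eval (fun i => τ (z i)) (map (τ : ℂ →+* PadicAlgCl p) g) = τ (eval z g) := by
    intro z g
    rw [eval_map]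
    have h := eval₂_comp_left (τ : ℂ →+* PadicAlgCl p) (RingHom.id _) z g
    rw [RingHom.comp_id] at h
    exact h.symm
  have hret : ∀ (x : ι → unitBall (PadicAlgCl p)) (z : ι → ℂ), (∀ i, (x i : PadicAlgCl p) = τ (z i)) →
      ∀ n, (∀ P ∈ (fun g => map (τ : ℂ →+* PadicAlgCl p) g) '' S,
        eval (fun i => (((pt F)^[n] x i : unitBall (PadicAlgCl p)) : PadicAlgCl p)) P = 0) ↔
        ∀ g ∈ S, eval ((pt f)^[n] z) g = 0 := by
    intro x z hxz n
    have e1 : (fun i => (((pt F)^[n] x i : unitBall (PadicAlgCl p)) : PadicAlgCl p)) =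
        fun i => τ ((pt f)^[n] z i) := funext (hmap x z hxz n)
    rw [e1]
    constructor
    · intro h g hg
      have h2 := h _ ⟨g, hg, rfl⟩
      rw [hev] at h2
      exact (map_eq_zero τ).1 h2
    · rintro h _ ⟨g, hg, rfl⟩
      rw [hev, h g hg, map_zero]
  have hset : {n : ℕ | ∀ P ∈ (fun g => map (τ : ℂ →+* PadicAlgCl p) g) '' S,
        eval (fun i => (((pt F)^[n] b i : unitBall (PadicAlgCl p)) : PadicAlgCl p)) P = 0} =
      {n : ℕ | ∀ g ∈ S, eval ((pt f)^[n] a) g = 0} := by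
    ext n
    exact hret b a (fun i => rfl) n
  rcases gap_or_shadow p F b ((fun g => map (τ : ℂ →+* PadicAlgCl p) g) '' S) with h | h
  · right
    rwa [hset] at h
  · left
    obtain ⟨n0, k, y, hk, hy, hres⟩ := h
    -- the complex point
    let z : ι → ℂ := fun i => τ.symm (y i)
    have hyz : ∀ i, (y i : PadicAlgCl p) = τ (z i) := fun i => (τ.apply_symm_apply _).symm
    have hz : z ∈ Tr := ⟨k, hk, fun t => (hret y z hyz (k * t)).1 (hy t)⟩
    obtain ⟨-, m, hm⟩ := hE z hz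
    have hunit : ∀ n, m ≤ n → IsUnit (jac F ((pt F)^[n] y)).det := by
      intro n hn
      rw [unitBall_isUnit_iff]
      have e1 : (((jac F ((pt F)^[n] y)).det : unitBall (PadicAlgCl p)) : PadicAlgCl p) =
          τ ((jac f ((pt f)^[n] z)).det) := by
        have e2 := jac_map (unitBall (PadicAlgCl p)).subtype F ((pt F)^[n] y)
        have e3 := jac_map (τ : ℂ →+* PadicAlgCl p) f ((pt f)^[n] z)
        have e4 : (fun i => map (unitBall (PadicAlgCl p)).subtype (F i)) =
          fun i => map (τ : ℂ →+* PadicAlgCl p) (f i) := funext hF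
        have e5 : (fun i => (unitBall (PadicAlgCl p)).subtype ((pt F)^[n] y i)) =
            fun i => (τ : ℂ →+* PadicAlgCl p) ((pt f)^[n] z i) := funext (hmap y z hyz n)
        rw [e4, e5, e3] at e2
        have e6 := congrArg Matrix.det e2
        rw [← RingHom.map_det, ← RingHom.map_det] at e6
        exact e6.symm
      rw [e1]
      have hne := hm n hn
      have hmem : (pt f)^[n] z ∈ U := by
        rw [Set.mem_iUnion₂]
        exact ⟨z, hz, n, rfl⟩
      have h2 : ‖τ ((jac f ((pt f)^[n] z)).det)⁻¹‖ ≤ 1 := hτ' _ (by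
        right; exact ⟨_, hmem, rfl⟩)
      have h3 : ‖τ ((jac f ((pt f)^[n] z)).det)‖ ≤ 1 := by
        rw [← e1]
        exact unitBall_norm_le _
      rw [map_inv₀, norm_inv] at h2
      have h4 : 0 < ‖τ ((jac f ((pt f)^[n] z)).det)‖ :=
        norm_pos_iff.2 ((map_ne_zero τ).2 hne)
      exact le_antisymm h3 ((inv_le_one₀ h4).1 h2)
    have hdet := unit_transfer p F b y n0 m hres hunit
    obtain ⟨n1, k1, hk1, hret1⟩ := return_set p F b (n0 + m) hdet
    apply exists_progressions _ n1 k1 hk1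
    intro r hinf t
    have h1 := hret1 ((fun g => map (τ : ℂ →+* PadicAlgCl p) g) '' S) r
    have h2 : ∀ n, (∀ P ∈ (fun g => map (τ : ℂ →+* PadicAlgCl p) g) '' S,
        eval (fun i => (((pt F)^[n] b i : unitBall (PadicAlgCl p)) : PadicAlgCl p)) P = 0) ↔
        ∀ g ∈ S, eval ((pt f)^[n] a) g = 0 := hret b a (fun i => rfl)
    simp only [h2] at h1
    exact h1 hinf t

end

end Pool.Agent.R847.Gap
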