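import Mathlib

set_option autoImplicit false

/-! Exponentially sparse sets of natural numbers. -/

namespace Pool.Agent.R847.Gap

/-- A set `A` of natural numbers is exponentially sparse if there are `M` and `δ > 0` such that for
all sufficiently large `n` the interval from `n` to `exp (δ n)` contains at most `M` elements of
`A`. -/
def ExpSparse (A : Set ℕ) : Prop :=
  ∃ (M : ℕ) (δ : ℝ) (n₁ : ℕ), 0 < δ ∧ ∀ n, n₁ ≤ n → ∀ T : Finset ℕ,
    (∀ m ∈ T, m ∈ A ∧ n ≤ m ∧ (m : ℝ) ≤ Real.exp (δ * n)) → T.card ≤ M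

lemma ExpSparse.mono {A B : Set ℕ} (h : ExpSparse B) (hAB : A ⊆ B) : ExpSparse A := by
  obtain ⟨M, δ, n₁, hδ, hM⟩ := h
  exact ⟨M, δ, n₁, hδ, fun n hn T hT => hM n hn T fun m hm =>
    ⟨hAB (hT m hm).1, (hT m hm).2⟩⟩

lemma ExpSparse.union {A B : Set ℕ} (hA : ExpSparse A) (hB : ExpSparse B) : ExpSparse (A ∪ B) := by
  classical
  obtain ⟨M, δ, n₁, hδ, hM⟩ := hA
  obtain ⟨M', δ', n₁', hδ', hM'⟩ := hB
  refine ⟨M + M', min δ δ', max n₁ n₁', lt_min hδ hδ', fun n hn T hT => ?_⟩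
  have h1 := hM n ((le_max_left _ _).trans hn) (T.filter (fun m => m ∈ A)) (by
    intro m hm
    rw [Finset.mem_filter] at hm
    obtain ⟨-, h2, h3⟩ := hT m hm.1
    refine ⟨hm.2, h2, h3.trans ?_⟩
    apply Real.exp_le_exp.2
    exact mul_le_mul_of_nonneg_right (min_le_left _ _) (Nat.cast_nonneg _))
  have h2 := hM' n ((le_max_right _ _).trans hn) (T.filter (fun m => ¬ m ∈ A)) (by
    intro m hm
    rw [Finset.mem_filter] at hm
    obtain ⟨h1, h2, h3⟩ := hT m hm.1
    refine ⟨h1.resolve_left hm.2, h2, h3.trans ?_⟩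
    apply Real.exp_le_exp.2
    exact mul_le_mul_of_nonneg_right (min_le_right _ _) (Nat.cast_nonneg _))
  rw [← Finset.card_filter_add_card_filter_not (s := T) (fun m => m ∈ A)]
  exact Nat.add_le_add h1 h2

lemma ExpSparse.finite {A : Set ℕ} (hA : A.Finite) : ExpSparse A := by
  refine ⟨0, 1, hA.toFinset.sup id + 1, one_pos, fun n hn T hT => ?_⟩
  rw [Nat.le_zero, Finset.card_eq_zero]
  by_contra h
  obtain ⟨m, hm⟩ := Finset.nonempty_iff_ne_empty.2 h
  obtain ⟨h1, h2, -⟩ := hT m hm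
  have h3 : m ≤ hA.toFinset.sup id := Finset.le_sup (f := id) (hA.mem_toFinset.2 h1)
  omega

lemma ExpSparse.biUnion {κ : Type} (t : Finset κ) (A : κ → Set ℕ) (h : ∀ r ∈ t, ExpSparse (A r)) :
    ExpSparse (⋃ r ∈ t, A r) := by
  classical
  induction t using Finset.induction_on with
  | empty =>
    apply ExpSparse.finite
    simp
  | insert a t ha ih =>
    rw [Finset.set_biUnion_insert]
    exact (h a (Finset.mem_insert_self _ _)).union
      (ih fun r hr => h r (Finset.mem_insert_of_mem hr))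

lemma ExpSparse.affine {A : Set ℕ} (b k : ℕ) (hk : 0 < k) (h : ExpSparse {t | b + k * t ∈ A}) :
    ExpSparse {n | n ∈ A ∧ ∃ t, n = b + k * t} := by
  classical
  obtain ⟨M, δ, n₁, hδ, hM⟩ := h
  have hkR : (0 : ℝ) < k := by exact_mod_cast hk
  refine ⟨M, δ / (2 * k), 2 * (b + k) + 2 * k * n₁, by positivity, fun n hn T hT => ?_⟩
  set n' := (n - b) / k with hn'
  have h1 : n ≤ 2 * k * n' := by
    have h2 : k * n' + (n - b) % k = n - b := Nat.div_add_mod _ _
    have h3 : (n - b) % k < k := Nat.mod_lt _ hk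
    nlinarith [Nat.sub_add_cancel (show b ≤ n by omega)]
  have hnn : n₁ ≤ n' := by
    by_contra hcon
    push Not at hcon
    have h2 : 2 * k * n' ≤ 2 * k * n₁ := Nat.mul_le_mul_left _ hcon.le
    omega
  have hinj : Set.InjOn (fun m => (m - b) / k) (T : Set ℕ) := by
    intro m hm m' hm' heq
    obtain ⟨⟨-, t, rfl⟩, -, -⟩ := hT m hm
    obtain ⟨⟨-, t', rfl⟩, -, -⟩ := hT m' hm'
    simp only [Nat.add_sub_cancel_left, Nat.mul_div_cancel_left _ hk] at heq
    rw [heq]
  have h2 := hM n' hnn (T.image fun m => (m - b) / k) (by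
    intro s hs
    rw [Finset.mem_image] at hs
    obtain ⟨m, hm, rfl⟩ := hs
    obtain ⟨⟨hA, t, rfl⟩, hle, hexp⟩ := hT m hm
    simp only [Nat.add_sub_cancel_left, Nat.mul_div_cancel_left _ hk]
    refine ⟨hA, ?_, ?_⟩
    · rw [hn']
      apply Nat.div_le_of_le_mul
      omega
    · have h3 : (t : ℝ) ≤ ((b + k * t : ℕ) : ℝ) := by
        have : t ≤ b + k * t := by nlinarith
        exact_mod_cast this
      refine (h3.trans hexp).trans ?_
      apply Real.exp_le_exp.2
      have h4 : (n : ℝ) ≤ 2 * k * n' := by exact_mod_cast h1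
      calc δ / (2 * k) * n ≤ δ / (2 * k) * (2 * k * n') :=
            mul_le_mul_of_nonneg_left h4 (by positivity)
        _ = δ * n' := by field_simp)
  rwa [Finset.card_image_of_injOn hinj] at h2

end Pool.Agent.R847.Gap
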