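import Pool.Agent.R847.Gap.Shadow
import Pool.Agent.R847.Gap.Sparse

set_option autoImplicit false

/-! The gap principle at a prime: either the return times are exponentially sparse, or there is a
point of the same residue class whose return times contain an infinite arithmetic progression. -/

namespace Pool.Agent.R847.Gap

open MvPolynomial Pool.Agent.H936R2 Filter Topology

variable {ι : Type} [Fintype ι] [DecidableEq ι] (p : ℕ) [hp : Fact p.Prime]

lemma one_le_norm_int (z : ℤ) (hz : z ≠ 0) : 1 ≤ ‖(z : PadicAlgCl p)‖ * |(z : ℝ)| := by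
  have h1 : ‖(z : PadicAlgCl p)‖ = ‖(z : ℚ_[p])‖ := by
    have h := PadicAlgCl.norm_extends p (z : ℚ_[p])
    change ‖algebraMap ℚ_[p] (PadicAlgCl p) (z : ℚ_[p])‖ = _ at h
    rw [map_intCast] at h
    exact h
  have hz' : (z : ℚ_[p]) ≠ 0 := Int.cast_ne_zero.2 hz
  have h2 : ‖(z : ℚ_[p])‖ = (p : ℝ) ^ (-(padicValInt p z : ℤ)) := by
    rw [Padic.norm_eq_zpow_neg_valuation hz', Padic.valuation_intCast]
  have hp0 : (0 : ℝ) < p := by exact_mod_cast hp.out.pos
  have h3 : (p : ℤ) ^ padicValInt p z ≤ |z| := by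
    apply Int.le_of_dvd (abs_pos.2 hz)
    rw [dvd_abs]
    exact padicValInt_dvd z
  have h4 : (p : ℝ) ^ padicValInt p z ≤ |(z : ℝ)| := by exact_mod_cast h3
  rw [h1, h2, zpow_neg, zpow_natCast]
  calc (1 : ℝ) = ((p : ℝ) ^ padicValInt p z)⁻¹ * (p : ℝ) ^ padicValInt p z := by
        field_simp
    _ ≤ _ := mul_le_mul_of_nonneg_left h4 (by positivity)

/-- A sequence which is exponentially near to an analytic one that is not zero has exponentially
sparse zeros. -/
lemma sparse_zeros (H : ι → MvPolynomial ι (unitBall (PadicAlgCl p)))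
    (u y : ι → unitBall (PadicAlgCl p)) (q : MvPolynomial ι (unitBall (PadicAlgCl p)))
    (h1 : ∀ n, ‖((valSeq H u q n : unitBall (PadicAlgCl p)) : PadicAlgCl p) - valSeq H y q n‖ ≤
        ‖(p : PadicAlgCl p)‖ ^ (2 * n))
    (h2 : ∀ j, ‖(((fwdDiff 1)^[j] (valSeq H y q) 0 : unitBall (PadicAlgCl p)) : PadicAlgCl p)‖ ≤
        ‖(p : PadicAlgCl p)‖ ^ (2 * j))
    (hne : ∃ n, valSeq H y q n ≠ 0) :
    ExpSparse {t | valSeq H u q t = 0} := by
  have hp0 := norm_p_pos p
  have hp1 := norm_p_lt p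
  obtain ⟨j, c, hc, hgap⟩ := newton_gap (K := PadicAlgCl p)
    (fun n => (((fwdDiff 1)^[n] (valSeq H y q) 0 : unitBall (PadicAlgCl p)) : PadicAlgCl p) /
      ((n.factorial : ℕ) : PadicAlgCl p))
    (fun n => ((valSeq H y q n : unitBall (PadicAlgCl p)) : PadicAlgCl p)) (by
      intro n
      have h3 := shift_eq_sum_fwdDiff_iter (1 : ℕ) (valSeq H y q) n 0
      simp only [zero_add, smul_eq_mul, mul_one] at h3
      rw [h3]
      push_cast
      apply Finset.sum_congr rfl
      intro k _
      rw [Nat.descFactorial_eq_factorial_mul_choose]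
      have : ((k.factorial : ℕ) : PadicAlgCl p) ≠ 0 := Nat.cast_ne_zero.2 (Nat.factorial_ne_zero k)
      push_cast
      rw [nsmul_eq_mul]
      field_simp) (by
      rw [Metric.tendsto_atTop]
      intro ε hε
      obtain ⟨m, hm⟩ := exists_pow_lt_of_lt_one hε hp1
      refine ⟨m, fun n hn => ?_⟩
      rw [dist_zero_right, norm_div]
      have h3 := norm_prime_pow_le_factorial (K := PadicAlgCl p) p hp1 n
      have h4 : 0 < ‖((n.factorial : ℕ) : PadicAlgCl p)‖ :=
        norm_pos_iff.2 (Nat.cast_ne_zero.2 (Nat.factorial_ne_zero n))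
      calc _ ≤ (‖(p : PadicAlgCl p)‖ ^ (2 * n)) / ‖(p : PadicAlgCl p)‖ ^ n := by
            apply div_le_div₀ (by positivity) (h2 n) (by positivity) h3
        _ = ‖(p : PadicAlgCl p)‖ ^ n := by
            rw [two_mul, pow_add]; field_simp
        _ ≤ ‖(p : PadicAlgCl p)‖ ^ m := pow_le_pow_of_le_one hp0.le hp1.le hn
        _ < ε := hm) (one_le_norm_int p) (by
      obtain ⟨n, hn⟩ := hne
      refine ⟨n, fun h0 => hn ?_⟩
      exact Subtype.ext h0)
  set ρ := ‖(p : PadicAlgCl p)‖ with hρ
  obtain ⟨n₁, hn₁⟩ := exists_pow_lt_of_lt_one hc hp1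
  have hlog : 0 < -Real.log ρ := by
    have := Real.log_neg hp0 hp1
    linarith
  refine ⟨j, -Real.log ρ / (j + 1), n₁, by positivity, fun n hn T hT => ?_⟩
  by_contra hcard
  push Not at hcard
  obtain ⟨Z, hZT, hZ⟩ := Finset.exists_subset_card_eq (s := T) (n := j + 1) hcard
  have h3 := hgap Z (Real.exp (-Real.log ρ / (j + 1) * n)) (ρ ^ (2 * n)) hZ (by
    intro m hm m' hm'
    obtain ⟨-, h4, h5⟩ := hT m (hZT hm)
    obtain ⟨-, h6, h7⟩ := hT m' (hZT hm')
    have h8 : (0 : ℝ) ≤ m := Nat.cast_nonneg _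
    have h9 : (0 : ℝ) ≤ m' := Nat.cast_nonneg _
    rw [abs_le]
    constructor <;> linarith) (by
    intro m hm
    obtain ⟨h4, h5, -⟩ := hT m (hZT hm)
    have h6 := h1 m
    rw [Set.mem_ofPred_eq] at h4
    rw [h4] at h6
    push_cast at h6
    rw [zero_sub, norm_neg] at h6
    exact h6.trans (pow_le_pow_of_le_one hp0.le hp1.le (by omega)))
  have h4 : Real.exp (-Real.log ρ / (j + 1) * n) ^ j ≤ (ρ ^ n)⁻¹ := by
    rw [← Real.exp_nat_mul]
    have h5 : (ρ ^ n)⁻¹ = Real.exp (n * -Real.log ρ) := by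
      rw [mul_neg, Real.exp_neg, Real.exp_nat_mul, Real.exp_log hp0]
    rw [h5]
    apply Real.exp_le_exp.2
    have h6 : (0 : ℝ) ≤ n := Nat.cast_nonneg _
    have h7 : (j : ℝ) * (-Real.log ρ / (j + 1) * n) = (j / (j + 1)) * (n * -Real.log ρ) := by
      field_simp
    rw [h7]
    have h8 : (j : ℝ) / (j + 1) ≤ 1 := by
      rw [div_le_one (by positivity)]
      linarith
    calc _ ≤ 1 * (n * -Real.log ρ) := mul_le_mul_of_nonneg_right h8 (by positivity)
      _ = _ := one_mul _
  have h5 : c ≤ ρ ^ n := by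
    calc c ≤ _ := h3
      _ ≤ ρ ^ (2 * n) * (ρ ^ n)⁻¹ := mul_le_mul_of_nonneg_left h4 (by positivity)
      _ = ρ ^ n := by rw [two_mul, pow_add]; field_simp
  have h6 : ρ ^ n ≤ ρ ^ n₁ := pow_le_pow_of_le_one hp0.le hp1.le hn
  linarith

/-- **The gap principle at a prime.** -/
theorem gap_or_shadow (F : ι → MvPolynomial ι (unitBall (PadicAlgCl p)))
    (a : ι → unitBall (PadicAlgCl p)) (S : Set (MvPolynomial ι (PadicAlgCl p))) :
    ExpSparse {n | ∀ P ∈ S, eval (fun i => ((pt F)^[n] a i : PadicAlgCl p)) P = 0} ∨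
    ∃ (n0 k : ℕ) (y : ι → unitBall (PadicAlgCl p)), 0 < k ∧
      (∀ t, ∀ P ∈ S, eval (fun i => ((pt F)^[k * t] y i : PadicAlgCl p)) P = 0) ∧
      ∀ i, res (PadicAlgCl p) (y i) = res (PadicAlgCl p) ((pt F)^[n0] a i) := by
  classical
  have hp0 := norm_p_pos p
  have hp1 := norm_p_lt p
  obtain ⟨n0, k, H, hk, hF, hH⟩ := exists_window p F a
  obtain ⟨y, hy⟩ := exists_shadow p H hH 0
  set b := (pt F)^[n0] a with hb
  set π : unitBall (PadicAlgCl p) := (p : unitBall (PadicAlgCl p)) ^ 2 with hπ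
  have hit : ∀ (v : ι → unitBall (PadicAlgCl p)) t, (pt F)^[k * t] (fun i => b i + π * v i) =
      fun i => b i + π * (pt H)^[t] v i := by
    intro v t
    induction t with
    | zero => funext i; simp
    | succ t ih =>
      rw [Nat.mul_succ, Nat.add_comm, Function.iterate_add_apply, ih, hF,
        Function.iterate_succ_apply']
  have hb0 : (fun i => b i + π * (0 : ι → unitBall (PadicAlgCl p)) i) = b := by
    funext i; simp
  choose c Q hc hQ using fun P : MvPolynomial ι (PadicAlgCl p) => exists_scale p hp1 P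
  -- the pulled back polynomials
  let q : ℕ → MvPolynomial ι (PadicAlgCl p) → MvPolynomial ι (unitBall (PadicAlgCl p)) :=
    fun r P => aeval (fun i => C (b i) + C π * X i) (pullback F r (Q P))
  have hq : ∀ r P v t, ((valSeq H v (q r P) t : unitBall (PadicAlgCl p)) : PadicAlgCl p) =
      c P * eval (fun i => ((pt F)^[r + k * t] (fun i => b i + π * v i) i : PadicAlgCl p)) P := by
    intro r P v t
    have h1 : valSeq H v (q r P) t = eval ((pt F)^[r + k * t] (fun i => b i + π * v i)) (Q P) := by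
      rw [Function.iterate_add_apply, ← eval_pullback, hit, valSeq]
      simp only [q]
      rw [eval_aeval_poly]
      congr 2
      funext i
      simp
    rw [h1, eval_coe, hQ]
    simp
  by_cases hcase : ∃ r, ∀ P ∈ S, ∀ t, valSeq H y (q r P) t = 0
  · right
    obtain ⟨r, hr⟩ := hcase
    refine ⟨n0 + r, k, (pt F)^[r] (fun i => b i + π * y i), hk, fun t P hP => ?_, fun i => ?_⟩
    · have h1 := hq r P y t
      rw [hr P hP t] at h1
      rw [← Function.iterate_add_apply, Nat.add_comm]
      rw [ZeroMemClass.coe_zero] at h1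
      exact (mul_eq_zero.1 h1.symm).resolve_left (hc P)
    · have h1 := pt_map (res (PadicAlgCl p)) F (fun i => b i + π * y i) r
      have h2 := pt_map (res (PadicAlgCl p)) F b r
      have h3 : (fun i => res (PadicAlgCl p) (b i + π * y i)) =
          fun i => res (PadicAlgCl p) (b i) := by
        funext i
        rw [map_add, map_mul]
        have h4 : res (PadicAlgCl p) π = 0 := by
          rw [res_eq_zero_iff, hπ]
          push_cast
          rw [norm_pow]
          exact pow_lt_one₀ hp0.le hp1 (by norm_num)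
        rw [h4, zero_mul, add_zero]
      rw [h3] at h1
      rw [h1] at h2
      have h5 := congrFun h2 i
      rw [Nat.add_comm n0 r, Function.iterate_add_apply, ← hb]
      exact h5
  · left
    push Not at hcase
    have h1 : ∀ r, ExpSparse {n | n ∈ {n | ∀ P ∈ S,
        eval (fun i => ((pt F)^[n] a i : PadicAlgCl p)) P = 0} ∧ ∃ t, n = (n0 + r) + k * t} := by
      intro r
      apply ExpSparse.affine _ _ hk
      obtain ⟨P, hP, t, ht⟩ := hcase r
      refine (sparse_zeros p H 0 y (q r P) (hy _).1 (hy _).2 ⟨t, ht⟩).mono ?_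
      intro s hs
      rw [Set.mem_ofPred_eq] at hs ⊢
      have h2 := hs P hP
      apply Subtype.ext
      rw [hq, hb0, hb, ← Function.iterate_add_apply]
      have h3 : r + k * s + n0 = n0 + r + k * s := by ring
      rw [h3, h2, mul_zero]
      rfl
    refine ((ExpSparse.finite (Set.finite_lt_nat n0)).union
      (ExpSparse.biUnion (Finset.range k) _ fun r _ => h1 r)).mono ?_
    intro n hn
    by_cases hlt : n < n0
    · left; exact hlt
    · right
      rw [Set.mem_iUnion₂]
      refine ⟨(n - n0) % k, Finset.mem_range.2 (Nat.mod_lt _ hk), hn, (n - n0) / k, ?_⟩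
      have := Nat.mod_add_div (n - n0) k
      omega

end Pool.Agent.R847.Gap
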