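import Pool.Agent.H936R2.Crit

set_option autoImplicit false

/-! For an arbitrary polynomial self-map over the integers of the algebraic closure of `ℚ_p` and an
arbitrary orbit, some iterate acts on a residue polydisc of the orbit, in the scaled coordinate, by a
polynomial map which is idempotent modulo `p²`. -/

namespace Pool.Agent.R847.Gap

open MvPolynomial Pool.Agent.H936R2

section cong

variable {ι : Type} {O : Type} [CommRing O]

/-- Congruence of polynomials modulo a constant. -/
def Cong (π : O) (q r : MvPolynomial ι O) : Prop := ∃ s, q - r = C π * s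

lemma Cong.refl (π : O) (q : MvPolynomial ι O) : Cong π q q := ⟨0, by simp⟩

lemma Cong.symm {π : O} {q r : MvPolynomial ι O} (h : Cong π q r) : Cong π r q := by
  obtain ⟨s, hs⟩ := h
  exact ⟨-s, by linear_combination -hs⟩

lemma Cong.trans {π : O} {q r t : MvPolynomial ι O} (h : Cong π q r) (h' : Cong π r t) :
    Cong π q t := by
  obtain ⟨s, hs⟩ := h
  obtain ⟨s', hs'⟩ := h'
  exact ⟨s + s', by linear_combination hs + hs'⟩

lemma Cong.add {π : O} {q r q' r' : MvPolynomial ι O} (h : Cong π q r) (h' : Cong π q' r') :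
    Cong π (q + q') (r + r') := by
  obtain ⟨s, hs⟩ := h
  obtain ⟨s', hs'⟩ := h'
  exact ⟨s + s', by linear_combination hs + hs'⟩

lemma Cong.mul {π : O} {q r q' r' : MvPolynomial ι O} (h : Cong π q r) (h' : Cong π q' r') :
    Cong π (q * q') (r * r') := by
  obtain ⟨s, hs⟩ := h
  obtain ⟨s', hs'⟩ := h'
  exact ⟨s * q' + r * s', by linear_combination q' * hs + r * hs'⟩

lemma Cong.sum {π : O} {κ : Type} (t : Finset κ) (q r : κ → MvPolynomial ι O)
    (h : ∀ j ∈ t, Cong π (q j) (r j)) : Cong π (∑ j ∈ t, q j) (∑ j ∈ t, r j) := by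
  classical
  induction t using Finset.induction_on with
  | empty => simpa using Cong.refl π (0 : MvPolynomial ι O)
  | insert a t ha ih =>
    rw [Finset.sum_insert ha, Finset.sum_insert ha]
    exact (h a (Finset.mem_insert_self _ _)).add (ih fun j hj => h j (Finset.mem_insert_of_mem hj))

lemma Cong.map_algHom {π : O} {q r : MvPolynomial ι O} (h : Cong π q r)
    (T : MvPolynomial ι O →ₐ[O] MvPolynomial ι O) : Cong π (T q) (T r) := by
  obtain ⟨s, hs⟩ := h
  refine ⟨T s, ?_⟩
  rw [← map_sub, hs, map_mul]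
  congr 1
  exact T.commutes π

lemma cong_algHom {π : O} (A B : MvPolynomial ι O →ₐ[O] MvPolynomial ι O)
    (h : ∀ i, Cong π (A (X i)) (B (X i))) (q : MvPolynomial ι O) : Cong π (A q) (B q) := by
  induction q using MvPolynomial.induction_on with
  | C a =>
    have h1 : A (C a) = B (C a) := (A.commutes a).trans (B.commutes a).symm
    rw [h1]
    exact Cong.refl _ _
  | add p q hp hq => rw [map_add, map_add]; exact hp.add hq
  | mul_X p i hp => rw [map_mul, map_mul]; exact hp.mul (h i)

lemma eval_pow (h : ι → MvPolynomial ι O) (n : ℕ) :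
    ∀ (q : MvPolynomial ι O) (u : ι → O),
      eval u (((aeval h : MvPolynomial ι O →ₐ[O] MvPolynomial ι O) ^ n) q) =
        eval ((pt h)^[n] u) q := by
  induction n with
  | zero => intro q u; simp
  | succ n ih =>
    intro q u
    rw [pow_succ, AlgHom.mul_apply, ih, eval_aeval_poly, Function.iterate_succ_apply']
    rfl

lemma aeval_pow_eq (h : ι → MvPolynomial ι O) (n : ℕ) :
    (aeval (fun i => ((aeval h : MvPolynomial ι O →ₐ[O] MvPolynomial ι O) ^ n) (X i)) :
      MvPolynomial ι O →ₐ[O] MvPolynomial ι O) =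
      (aeval h : MvPolynomial ι O →ₐ[O] MvPolynomial ι O) ^ n := by
  apply MvPolynomial.algHom_ext
  intro i
  rw [aeval_X]

/-- The comorphism of a polynomial self-map is idempotent modulo `π`. -/
def IdemMod (π : O) (H : ι → MvPolynomial ι O) : Prop :=
  ∀ q : MvPolynomial ι O, Cong π ((aeval H : MvPolynomial ι O →ₐ[O] MvPolynomial ι O)
    ((aeval H : MvPolynomial ι O →ₐ[O] MvPolynomial ι O) q))
    ((aeval H : MvPolynomial ι O →ₐ[O] MvPolynomial ι O) q)

/-- The powers of a map which is affine modulo `π` are affine modulo `π`. -/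
lemma affine_pow [Fintype ι] [DecidableEq ι] (π : O) (R : Subring O) (h : ι → MvPolynomial ι O)
    (w : ι → O) (A : ι → ι → O)
    (hw : ∀ i, w i ∈ R) (hA : ∀ i j, A i j ∈ R)
    (hh : ∀ i, Cong π (h i) (C (w i) + ∑ j, C (A i j) * X j)) (n : ℕ) (i : ι) :
    ∃ (c : O) (m : ι → O), c ∈ R ∧ (∀ j, m j ∈ R) ∧
      Cong π (((aeval h : MvPolynomial ι O →ₐ[O] MvPolynomial ι O) ^ n) (X i))
        (C c + ∑ j, C (m j) * X j) := by
  induction n with
  | zero =>
    refine ⟨0, fun j => if j = i then 1 else 0, R.zero_mem, fun j => ?_, ?_⟩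
    · dsimp only
      split_ifs
      · exact R.one_mem
      · exact R.zero_mem
    · have h1 : (C 0 + ∑ j, C (if j = i then (1 : O) else 0) * X j : MvPolynomial ι O) = X i := by
        rw [C_0, zero_add, Finset.sum_eq_single i]
        · simp
        · intro j _ hj
          simp [hj]
        · simp
      rw [h1, pow_zero, AlgHom.one_apply]
      exact Cong.refl _ _
  | succ n ih =>
    obtain ⟨c, m, hc, hm, hcong⟩ := ih
    refine ⟨c + ∑ j, m j * w j, fun l => ∑ j, m j * A j l,
      R.add_mem hc (R.sum_mem fun j _ => R.mul_mem (hm j) (hw j)),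
      fun l => R.sum_mem fun j _ => R.mul_mem (hm j) (hA j l), ?_⟩
    rw [pow_succ', AlgHom.mul_apply]
    refine (hcong.map_algHom (aeval h)).trans ?_
    have h1 : (aeval h) (C c + ∑ j, C (m j) * X j : MvPolynomial ι O) =
        C c + ∑ j, C (m j) * h j := by
      simp only [map_add, map_sum, map_mul, aeval_X, MvPolynomial.algHom_C, algebraMap_eq]
    rw [h1]
    have h2 : (C (c + ∑ j, m j * w j) + ∑ l, C (∑ j, m j * A j l) * X l : MvPolynomial ι O) =
        C c + ∑ j, C (m j) * (C (w j) + ∑ l, C (A j l) * X l) := by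
      simp only [map_add, map_sum, map_mul, mul_add, Finset.sum_add_distrib, Finset.sum_mul,
        Finset.mul_sum]
      rw [add_assoc]
      congr 2
      rw [Finset.sum_comm]
      apply Finset.sum_congr rfl; intro j _
      apply Finset.sum_congr rfl; intro l _
      ring
    rw [h2]
    exact (Cong.refl _ _).add (Cong.sum _ _ _ fun j _ => (Cong.refl _ _).mul (hh j))

end cong

variable {ι : Type} [Fintype ι] [DecidableEq ι]

lemma norm_p_lt (p : ℕ) [Fact p.Prime] : ‖(p : PadicAlgCl p)‖ < 1 := norm_p_lt_one p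

lemma norm_p_pos (p : ℕ) [hp : Fact p.Prime] : 0 < ‖(p : PadicAlgCl p)‖ :=
  norm_pos_iff.2 (Nat.cast_ne_zero.2 hp.out.ne_zero)

lemma exists_div (p : ℕ) [hp : Fact p.Prime] (x : unitBall (PadicAlgCl p)) (e : ℕ)
    (hx : ‖(x : PadicAlgCl p)‖ ≤ ‖(p : PadicAlgCl p)‖ ^ e) :
    ∃ z : unitBall (PadicAlgCl p), x = (p : unitBall (PadicAlgCl p)) ^ e * z := by
  have hp0 := norm_p_pos p
  have hpne : (p : PadicAlgCl p) ≠ 0 := Nat.cast_ne_zero.2 hp.out.ne_zero
  refine ⟨⟨(x : PadicAlgCl p) / (p : PadicAlgCl p) ^ e, ?_⟩, ?_⟩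
  · rw [mem_unitBall, norm_div, norm_pow, div_le_one (by positivity)]
    exact hx
  · apply Subtype.ext
    push_cast
    rw [mul_div_cancel₀]
    exact pow_ne_zero _ hpne

/-- Finitely many integers lie in a subring contained in a finite dimensional space. -/
lemma exists_fd (p : ℕ) [hp : Fact p.Prime] (s : Set (unitBall (PadicAlgCl p))) (hs : s.Finite) :
    ∃ (R : Subring (unitBall (PadicAlgCl p))) (L : Submodule ℚ_[p] (PadicAlgCl p)),
      FiniteDimensional ℚ_[p] L ∧ (∀ x ∈ R, (x : PadicAlgCl p) ∈ L) ∧ ∀ x ∈ s, x ∈ R := by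
  let s' : Set (PadicAlgCl p) := (fun x : unitBall (PadicAlgCl p) => (x : PadicAlgCl p)) '' s
  have hs' : s'.Finite := hs.image _
  have : Finite s' := hs'
  let L0 := IntermediateField.adjoin ℚ_[p] s'
  have hfd : FiniteDimensional ℚ_[p] L0 := IntermediateField.finiteDimensional_adjoin
    fun x _ => (Algebra.IsAlgebraic.isAlgebraic x).isIntegral
  refine ⟨(L0.toSubring).comap (unitBall (PadicAlgCl p)).subtype,
    Subalgebra.toSubmodule L0.toSubalgebra, hfd, fun x hx => hx, fun x hx => ?_⟩
  exact IntermediateField.subset_adjoin _ _ ⟨x, hx, rfl⟩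

/-- **Idempotent windows.** -/
theorem exists_window (p : ℕ) [hp : Fact p.Prime]
    (F : ι → MvPolynomial ι (unitBall (PadicAlgCl p))) (a : ι → unitBall (PadicAlgCl p)) :
    ∃ (n0 k : ℕ) (H : ι → MvPolynomial ι (unitBall (PadicAlgCl p))), 0 < k ∧
      (∀ u : ι → unitBall (PadicAlgCl p),
        (pt F)^[k] (fun i => (pt F)^[n0] a i + (p : unitBall (PadicAlgCl p)) ^ 2 * u i) =
          fun i => (pt F)^[n0] a i + (p : unitBall (PadicAlgCl p)) ^ 2 * pt H u i) ∧
      IdemMod ((p : unitBall (PadicAlgCl p)) ^ 2) H := by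
  classical
  have hp0 := norm_p_pos p
  have hp1 := norm_p_lt p
  set π : unitBall (PadicAlgCl p) := (p : unitBall (PadicAlgCl p)) ^ 2 with hπ
  -- first recurrence
  obtain ⟨L, hL, horb⟩ := orbit_finiteDimensional p F a
  obtain ⟨n0, m0, hnm, hclose⟩ := compact_pair p L
    (fun n i => (((pt F)^[n] a i : unitBall (PadicAlgCl p)) : PadicAlgCl p)) horb
    (fun n i => unitBall_norm_le _) (‖(p : PadicAlgCl p)‖ ^ 2) (by positivity)
  obtain ⟨k0, rfl⟩ : ∃ k, m0 = n0 + k := ⟨m0 - n0, by omega⟩
  set b := (pt F)^[n0] a with hb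
  have h1 : ∀ i, ∃ z : unitBall (PadicAlgCl p), (pt F)^[n0 + k0] a i - b i = π * z :=
    fun i => exists_div p _ 2 (hclose i).le
  choose w hw using h1
  have hFb : ∀ i, (pt F)^[k0] b i = b i + π * w i := by
    intro i
    rw [hb, ← Function.iterate_add_apply, Nat.add_comm k0 n0, ← hb, ← hw i]
    ring
  -- the map in the scaled coordinate
  obtain ⟨r, hr⟩ := itP_expand F π b k0
  let A : ι → ι → unitBall (PadicAlgCl p) := fun i j => itA F b k0 i j
  let h : ι → MvPolynomial ι (unitBall (PadicAlgCl p)) :=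
    fun i => C (w i) + (∑ j, C (A i j) * X j) + C π * r i
  have hh : ∀ u : ι → unitBall (PadicAlgCl p),
      (pt F)^[k0] (fun i => b i + π * u i) = fun i => b i + π * pt h u i := by
    intro u
    funext i
    rw [← itP_eval, hr i]
    simp only [map_add, map_mul, eval_C, pt, eval_X, map_sum, hFb, map_pow, h, A]
    ring
  -- affine modulo π
  obtain ⟨R, L', hL', hRL, hs⟩ := exists_fd p (Set.range w ∪ Set.range fun q : ι × ι => A q.1 q.2)
    ((Set.finite_range _).union (Set.finite_range _))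
  have haff := affine_pow π R h w A (fun i => hs _ (Or.inl ⟨i, rfl⟩))
    (fun i j => hs _ (Or.inr ⟨(i, j), rfl⟩)) (fun i => ⟨r i, by simp only [h]; ring⟩)
  choose c m hc hm hcong using haff
  let y : ℕ → (ι ⊕ (ι × ι)) → PadicAlgCl p := fun n => Sum.elim
    (fun i => ((c n i : unitBall (PadicAlgCl p)) : PadicAlgCl p))
      (fun q => ((m n q.1 q.2 : unitBall (PadicAlgCl p)) : PadicAlgCl p))
  obtain ⟨n1, m1, hnm1, hclose1⟩ := compact_pair p L' y
    (by
      intro n j
      rcases j with i | q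
      · exact hRL _ (hc n i)
      · exact hRL _ (hm n q.1 q.2))
    (by
      intro n j
      rcases j with i | q
      · exact unitBall_norm_le _
      · exact unitBall_norm_le _) (‖(p : PadicAlgCl p)‖ ^ 2) (by positivity)
  set T : MvPolynomial ι (unitBall (PadicAlgCl p)) →ₐ[unitBall (PadicAlgCl p)]
    MvPolynomial ι (unitBall (PadicAlgCl p)) := aeval h with hT
  have hTX : ∀ i, Cong π ((T ^ m1) (X i)) ((T ^ n1) (X i)) := by
    intro i
    refine (hcong m1 i).trans (Cong.trans ?_ (hcong n1 i).symm)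
    obtain ⟨z, hz⟩ := exists_div p (c m1 i - c n1 i) 2 (hclose1 (Sum.inl i)).le
    have h2 : ∀ j, ∃ z, m m1 i j - m n1 i j = π * z := fun j =>
      exists_div p _ 2 (hclose1 (Sum.inr (i, j))).le
    choose z' hz' using h2
    refine ⟨C z + ∑ j, C (z' j) * X j, ?_⟩
    have h3 : C (c m1 i) - C (c n1 i) = C π * (C z : MvPolynomial ι _) := by
      rw [← map_sub, hz, map_mul]
    have h4 : ∀ j, C (m m1 i j) - C (m n1 i j) = C π * (C (z' j) : MvPolynomial ι _) := by
      intro j
      rw [← map_sub, hz', map_mul]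
    have h5 : ∑ j, C (m m1 i j) * X j - ∑ j, C (m n1 i j) * X j =
        C π * ∑ j, (C (z' j) * X j : MvPolynomial ι _) := by
      rw [← Finset.sum_sub_distrib, Finset.mul_sum]
      apply Finset.sum_congr rfl
      intro j _
      rw [← sub_mul, h4]
      ring
    linear_combination h3 + h5
  obtain ⟨r1, hr1⟩ : ∃ r1, m1 = n1 + r1 := ⟨m1 - n1, by omega⟩
  have hr1pos : 0 < r1 := by omega
  have hTq : ∀ j, n1 ≤ j → ∀ q, Cong π ((T ^ (j + r1)) q) ((T ^ j) q) := by
    intro j hj q
    obtain ⟨l, rfl⟩ : ∃ l, j = n1 + l := ⟨j - n1, by omega⟩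
    have h2 := cong_algHom (T ^ m1) (T ^ n1) hTX ((T ^ l) q)
    rw [← AlgHom.mul_apply, ← AlgHom.mul_apply, ← pow_add, ← pow_add, hr1] at h2
    have h3 : n1 + r1 + l = n1 + l + r1 := by ring
    rwa [h3] at h2
  have hTs : ∀ s j, n1 ≤ j → ∀ q, Cong π ((T ^ (j + r1 * s)) q) ((T ^ j) q) := by
    intro s
    induction s with
    | zero => intro j _ q; simpa using Cong.refl π ((T ^ j) q)
    | succ s ih =>
      intro j hj q
      have h2 := hTq (j + r1 * s) (by omega) q
      have h3 := ih j hj q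
      have h4 : j + r1 * (s + 1) = j + r1 * s + r1 := by ring
      rw [h4]
      exact h2.trans h3
  set e := r1 * (n1 + 1) with he
  have hepos : 0 < e := Nat.mul_pos hr1pos (Nat.succ_pos _)
  have hen : n1 ≤ e := by
    rw [he]
    calc n1 ≤ 1 * (n1 + 1) := by omega
      _ ≤ r1 * (n1 + 1) := Nat.mul_le_mul_right _ hr1pos
  refine ⟨n0, k0 * e, fun i => (T ^ e) (X i), Nat.mul_pos (by omega) hepos, fun u => ?_,
    fun q => ?_⟩
  · -- iterates of the scaled map
    have h2 : ∀ n, (pt F)^[k0 * n] (fun i => b i + π * u i) =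
        fun i => b i + π * (pt h)^[n] u i := by
      intro n
      induction n with
      | zero => funext i; simp
      | succ n ih =>
        rw [Nat.mul_succ, Nat.add_comm, Function.iterate_add_apply, ih, hh,
          Function.iterate_succ_apply']
    rw [h2 e]
    funext i
    congr 2
    simp only [pt]
    rw [hT, eval_pow, eval_X]
  · rw [hT, aeval_pow_eq, ← hT, ← AlgHom.mul_apply, ← pow_add]
    have h2 := hTs (n1 + 1) e hen q
    rwa [← he] at h2

end Pool.Agent.R847.Gap
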