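import Pool.Agent.H936R2.Zeros

set_option autoImplicit false

/-! A quantitative form of Strassmann's bound: a Newton series with coefficients tending to zero
cannot be very small at many integers of a short interval. -/

namespace Pool.Agent.R847.Gap

open Polynomial Finset

variable {K : Type*} [NormedField K] [IsUltrametricDist K]

/-- The divided difference of a Newton type expansion at `j + 1` distinct naturals. -/
lemma newton_relation' (e : ℕ → K) (s : ℕ → K)
    (hs : ∀ n, s n = ∑ k ∈ range (n + 1), e k * (n.descFactorial k : K)) [CharZero K]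
    (Z : Finset ℕ) (j : ℕ) (hZ : Z.card = j + 1) :
    ∃ (m : ℕ) (z : ℕ → ℤ), e j = ∑ n ∈ Z, s n / ∏ l ∈ Z.erase n, ((n : K) - (l : K)) -
      ∑ k ∈ Ioc j m, e k * (z k : K) := by
  classical
  obtain ⟨m, hm⟩ : ∃ m, ∀ n ∈ Z, n ≤ m := ⟨Z.sup id, fun n hn => Finset.le_sup (f := id) hn⟩
  have hjm : j ≤ m := by
    have : Z ⊆ range (m + 1) := fun n hn => mem_range.mpr (Nat.lt_succ_of_le (hm n hn))
    have := card_le_card this
    rw [card_range] at this
    omega
  -- the integer polynomial with roots Z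
  let W : ℤ[X] := ∏ n ∈ Z, (X - C (n : ℤ))
  have hWm : W.Monic := monic_prod_of_monic _ _ fun n _ => monic_X_sub_C _
  have hWd : W.natDegree = j + 1 := by
    rw [natDegree_prod_of_monic _ _ fun n _ => monic_X_sub_C _]
    rw [sum_congr rfl fun n _ => natDegree_X_sub_C _]
    simp [hZ]
  let D : ℕ → ℤ[X] := fun k => descPochhammer ℤ k
  let R : ℕ → ℤ[X] := fun k => D k %ₘ W
  have hR : ∀ k, (R k).natDegree ≤ j := by
    intro k
    have h1 : (R k).degree < W.degree := degree_modByMonic_lt _ hWm
    have h2 : W.degree = (j + 1 : ℕ) := by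
      rw [degree_eq_natDegree hWm.ne_zero, hWd]
    rw [h2] at h1
    by_cases h0 : R k = 0
    · simp [h0]
    · rw [degree_eq_natDegree h0] at h1
      have : (R k).natDegree < j + 1 := by exact_mod_cast h1
      omega
  have hRlow : ∀ k, k ≤ j → R k = D k := by
    intro k hk
    apply (modByMonic_eq_self_iff hWm).2
    rw [degree_eq_natDegree hWm.ne_zero, hWd]
    have : (D k).degree ≤ (k : ℕ) := by
      have : (D k).natDegree = k := by
        simp only [D]; exact descPochhammer_natDegree ℤ k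
      exact (degree_le_natDegree).trans (by rw [this])
    refine lt_of_le_of_lt this ?_
    exact_mod_cast Nat.lt_succ_of_le hk
  have heval : ∀ k, ∀ n ∈ Z, ((R k).eval (n : ℤ)) = (n.descFactorial k : ℤ) := by
    intro k n hn
    have hroot : W.eval (n : ℤ) = 0 := by
      simp only [W, eval_prod]
      exact prod_eq_zero hn (by simp)
    have h1 := congrArg (eval (n : ℤ)) (modByMonic_add_div (D k) W)
    rw [eval_add, eval_mul, hroot, zero_mul, add_zero] at h1
    simp only [R]
    rw [h1]
    simp only [D]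
    exact descPochhammer_eval_eq_descFactorial ℤ n k
  -- the K polynomial
  let Q : K[X] := ∑ k ∈ range (m + 1), C (e k) * (R k).map (Int.castRingHom K)
  have hQd : Q.natDegree ≤ j := by
    apply natDegree_sum_le_of_forall_le
    intro k _
    refine (natDegree_C_mul_le _ _).trans ?_
    exact (natDegree_map_le).trans (hR k)
  have hQz : ∀ n ∈ Z, Q.eval (n : K) = s n := by
    intro n hn
    have h1 : Q.eval (n : K) = ∑ k ∈ range (m + 1), e k * (n.descFactorial k : K) := by
      simp only [Q, eval_finsetSum, eval_mul, eval_C]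
      apply sum_congr rfl
      intro k _
      congr 1
      have : ((n : ℕ) : K) = (Int.castRingHom K) (n : ℤ) := by simp
      rw [this, eval_map, eval₂_hom, heval k n hn]
      simp
    rw [h1]
    have h2 : ∑ k ∈ range (m + 1), e k * (n.descFactorial k : K) =
        ∑ k ∈ range (n + 1), e k * (n.descFactorial k : K) := by
      symm
      apply sum_subset
      · intro k hk
        rw [mem_range] at *
        have := hm n hn
        omega
      · intro k _ hk
        rw [mem_range, not_lt] at hk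
        rw [Nat.descFactorial_eq_zero_iff_lt.mpr (by omega)]
        simp
    rw [h2, ← hs]
  have hc : Q.coeff j = ∑ n ∈ Z, s n / ∏ l ∈ Z.erase n, ((n : K) - (l : K)) := by
    have h1 := Lagrange.coeff_eq_sum (F := K) (s := Z) (v := fun n : ℕ => (n : K))
      (fun a _ b _ hab => Nat.cast_injective hab) (P := Q) (by
        rw [hZ]
        refine lt_of_le_of_lt degree_le_natDegree ?_
        exact_mod_cast Nat.lt_succ_of_le hQd)
    rw [hZ, Nat.add_sub_cancel] at h1
    rw [h1]
    apply sum_congr rfl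
    intro n hn
    rw [hQz n hn]
  have hc2 : Q.coeff j = ∑ k ∈ range (m + 1), e k * (((R k).coeff j : ℤ) : K) := by
    simp only [Q, finsetSum_coeff, coeff_C_mul, coeff_map]
    rfl
  have hsplit : ∑ k ∈ range (m + 1), e k * (((R k).coeff j : ℤ) : K) =
      e j + ∑ k ∈ Ioc j m, e k * (((R k).coeff j : ℤ) : K) := by
    have h1 : range (m + 1) = range (j + 1) ∪ Ioc j m := by
      ext k
      simp only [mem_range, mem_union, mem_Ioc]
      omega
    have h2 : Disjoint (range (j + 1)) (Ioc j m) := by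
      rw [disjoint_left]
      intro k hk hk'
      rw [mem_range] at hk
      rw [mem_Ioc] at hk'
      omega
    rw [h1, sum_union h2]
    congr 1
    rw [sum_range_succ]
    have h3 : ∑ k ∈ range j, e k * (((R k).coeff j : ℤ) : K) = 0 := by
      apply sum_eq_zero
      intro k hk
      rw [mem_range] at hk
      rw [hRlow k hk.le]
      have : (D k).natDegree = k := by
        simp only [D]; exact descPochhammer_natDegree ℤ k
      rw [coeff_eq_zero_of_natDegree_lt (by omega)]
      simp
    rw [h3, zero_add, hRlow j le_rfl]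
    have h4 : (D j).coeff j = 1 := by
      have h5 : (D j).natDegree = j := by
        simp only [D]; exact descPochhammer_natDegree ℤ j
      have h6 : (D j).Monic := monic_descPochhammer ℤ j
      have := h6.coeff_natDegree
      rwa [h5] at this
    rw [h4]; simp
  refine ⟨m, fun k => (R k).coeff j, ?_⟩
  rw [hc2, hsplit] at hc
  linear_combination hc

/-- **Quantitative Strassmann bound.** -/
theorem newton_gap (e : ℕ → K) (s : ℕ → K)
    (hs : ∀ n, s n = ∑ k ∈ range (n + 1), e k * (n.descFactorial k : K)) [CharZero K]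
    (he : Filter.Tendsto e Filter.atTop (nhds 0))
    (hnorm : ∀ z : ℤ, z ≠ 0 → 1 ≤ ‖(z : K)‖ * |(z : ℝ)|)
    (hne : ∃ n, s n ≠ 0) :
    ∃ (j : ℕ) (c : ℝ), 0 < c ∧ ∀ (Z : Finset ℕ) (L ε : ℝ), Z.card = j + 1 →
      (∀ n ∈ Z, ∀ m ∈ Z, |(n : ℝ) - (m : ℝ)| ≤ L) → (∀ n ∈ Z, ‖s n‖ ≤ ε) → c ≤ ε * L ^ j := by
  classical
  obtain ⟨k0, hk0⟩ : ∃ k, e k ≠ 0 := by
    by_contra hall
    push Not at hall
    obtain ⟨n, hn⟩ := hne
    apply hn
    rw [hs]
    exact sum_eq_zero fun k _ => by rw [hall k, zero_mul]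
  -- the set of indices with norm ≥ ‖e k0‖ is finite
  have hfin : {k | ‖e k0‖ ≤ ‖e k‖}.Finite := by
    have h1 := (Metric.tendsto_atTop.1 he) ‖e k0‖ (norm_pos_iff.2 hk0)
    obtain ⟨n, hn⟩ := h1
    apply (Set.finite_lt_nat n).subset
    intro k hk
    by_contra hkn
    rw [Set.mem_ofPred_eq, not_lt] at hkn
    have := hn k hkn
    rw [dist_zero_right] at this
    exact absurd hk (not_le.2 this)
  obtain ⟨k1, hk1, hmax⟩ := hfin.toFinset.exists_max_image (fun k => ‖e k‖)
    ⟨k0, by simp⟩
  have hk1' : ‖e k0‖ ≤ ‖e k1‖ := by simpa using hk1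
  have hfin2 : {k | ‖e k1‖ ≤ ‖e k‖}.Finite :=
    hfin.subset fun k hk => hk1'.trans hk
  obtain ⟨j, hj, hjmax⟩ := hfin2.toFinset.exists_max_image (fun k => k) ⟨k1, by simp⟩
  have hj' : ‖e k1‖ ≤ ‖e j‖ := by simpa using hj
  have hjlt : ∀ k, j < k → ‖e k‖ < ‖e j‖ := by
    intro k hk
    by_contra h
    have : ‖e k1‖ ≤ ‖e k‖ := hj'.trans (not_lt.1 h)
    have := hjmax k (by simpa using this)
    omega
  have hpos : 0 < ‖e j‖ := lt_of_lt_of_le (norm_pos_iff.2 hk0) (hk1'.trans hj')
  refine ⟨j, ‖e j‖, hpos, fun Z L ε hZ hL hε => ?_⟩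
  obtain ⟨m, z, hrel⟩ := newton_relation' e s hs Z j hZ
  -- the second sum is small
  have hsecond : ‖∑ k ∈ Ioc j m, e k * (z k : K)‖ < ‖e j‖ := by
    by_cases hne' : (Ioc j m).Nonempty
    · obtain ⟨k, hk, hle⟩ := IsUltrametricDist.exists_norm_finsetSum_le_of_nonempty hne'
        (fun k => e k * (z k : K))
      refine lt_of_le_of_lt hle ?_
      rw [norm_mul]
      calc ‖e k‖ * ‖(z k : K)‖ ≤ ‖e k‖ * 1 :=
            mul_le_mul_of_nonneg_left (IsUltrametricDist.norm_intCast_le_one K _) (norm_nonneg _)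
        _ = ‖e k‖ := mul_one _
        _ < ‖e j‖ := hjlt k (mem_Ioc.1 hk).1
    · rw [not_nonempty_iff_eq_empty] at hne'
      rw [hne']
      simpa using hpos
  have hfirst : ‖e j‖ ≤ ‖∑ n ∈ Z, s n / ∏ l ∈ Z.erase n, ((n : K) - (l : K))‖ := by
    by_contra hlt
    rw [not_le] at hlt
    have h1 : ‖e j‖ ≤ max ‖∑ n ∈ Z, s n / ∏ l ∈ Z.erase n, ((n : K) - (l : K))‖
        ‖∑ k ∈ Ioc j m, e k * (z k : K)‖ := by
      nth_rewrite 1 [hrel]
      rw [sub_eq_add_neg]
      refine (IsUltrametricDist.norm_add_le_max _ _).trans ?_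
      rw [norm_neg]
    exact absurd h1 (not_le.2 (max_lt hlt hsecond))
  have hZne : Z.Nonempty := by
    rw [← card_pos, hZ]; omega
  obtain ⟨n, hn, hle⟩ := IsUltrametricDist.exists_norm_finsetSum_le_of_nonempty hZne
    (fun n => s n / ∏ l ∈ Z.erase n, ((n : K) - (l : K)))
  refine (hfirst.trans hle).trans ?_
  rw [norm_div, norm_prod, div_eq_mul_inv, ← Finset.prod_inv_distrib]
  have hε0 : 0 ≤ ε := (norm_nonneg _).trans (hε n hn)
  apply mul_le_mul (hε n hn) _ (by positivity) hε0
  have hcard : (Z.erase n).card = j := by rw [card_erase_of_mem hn, hZ]; omega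
  calc ∏ l ∈ Z.erase n, ‖(n : K) - (l : K)‖⁻¹ ≤ ∏ _l ∈ Z.erase n, L := by
        apply Finset.prod_le_prod
        · intro l _; positivity
        · intro l hl
          have hln : l ≠ n := (mem_erase.1 hl).1
          have hlZ : l ∈ Z := (mem_erase.1 hl).2
          have h1 := hnorm ((n : ℤ) - (l : ℤ)) (by
            intro h0
            apply hln
            omega)
          have h2 : (((n : ℤ) - (l : ℤ) : ℤ) : K) = (n : K) - (l : K) := by push_cast; ring
          have h3 : |(((n : ℤ) - (l : ℤ) : ℤ) : ℝ)| = |(n : ℝ) - (l : ℝ)| := by push_cast; ring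
          rw [h2, h3] at h1
          have h4 := hL n hn l hlZ
          have h5 : 0 < ‖(n : K) - (l : K)‖ := by
            by_contra h6
            have h7 : ‖(n : K) - (l : K)‖ = 0 := le_antisymm (not_lt.1 h6) (norm_nonneg _)
            rw [h7, zero_mul] at h1
            linarith
          rw [inv_le_iff_one_le_mul₀ h5]
          calc (1 : ℝ) ≤ ‖(n : K) - (l : K)‖ * |(n : ℝ) - (l : ℝ)| := h1
            _ ≤ ‖(n : K) - (l : K)‖ * L := mul_le_mul_of_nonneg_left h4 h5.le
            _ = L * ‖(n : K) - (l : K)‖ := mul_comm _ _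
    _ = L ^ j := by rw [prod_const, hcard]

end Pool.Agent.R847.Gap
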