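import Pool.Agent.R847.Gap.Affine

set_option autoImplicit false

/-! The gap principle for endomorphisms of projective space. -/

namespace Pool.Agent.R847.Gap

open MvPolynomial Pool.Agent.H936R2

/-- Effective form of the hypothesis that forms have no common zero. -/
lemma exists_null {N : ℕ} (f : Fin (N + 1) → MvPolynomial (Fin (N + 1)) ℂ)
    (h0 : ∀ x : Fin (N + 1) → ℂ, (∀ i, eval x (f i) = 0) → x = 0) (j : Fin (N + 1)) :
    ∃ (M : ℕ) (A : Fin (N + 1) → MvPolynomial (Fin (N + 1)) ℂ), ∑ i, A i * f i = X j ^ M := by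
  classical
  have h1 : (X j : MvPolynomial (Fin (N + 1)) ℂ) ∈ (Ideal.span (Set.range f)).radical := by
    rw [← MvPolynomial.vanishingIdeal_zeroLocus_eq_radical (K := ℂ),
      MvPolynomial.mem_vanishingIdeal_iff]
    intro x hx
    rw [MvPolynomial.mem_zeroLocus_iff] at hx
    have h2 := h0 x fun i => by
      have := hx (f i) (Ideal.subset_span ⟨i, rfl⟩)
      simpa using this
    rw [aeval_X, h2]
    rfl
  obtain ⟨M, hM⟩ := h1
  rw [Ideal.mem_span_range_iff_exists_fun] at hM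
  obtain ⟨A, hA⟩ := hM
  exact ⟨M, A, hA⟩

lemma jac_scale {K : Type} [Field K] {N : ℕ} (f : Fin (N + 1) → MvPolynomial (Fin (N + 1)) K) (d : ℕ)
    (hf : ∀ i, (f i).IsHomogeneous d) (c : K) (v : Fin (N + 1) → K) :
    (jac f (fun i => c * v i)).det = (c ^ (d - 1)) ^ (N + 1) * (jac f v).det := by
  have h1 : jac f (fun i => c * v i) = c ^ (d - 1) • jac f v := by
    ext i j
    simp only [jac, Matrix.smul_apply, smul_eq_mul]
    exact eval_scale _ (d - 1) ((hf i).pderiv) c v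
  rw [h1, Matrix.det_smul, Fintype.card_fin]

/-- The gap principle for an endomorphism of projective space over `ℂ`. -/
theorem proj_gap {N d : ℕ} (f : Fin (N + 1) → MvPolynomial (Fin (N + 1)) ℂ)
    (hf : ∀ i, (f i).IsHomogeneous d)
    (h0 : ∀ x : Fin (N + 1) → ℂ, (∀ i, eval x (f i) = 0) → x = 0)
    (S : Set (MvPolynomial (Fin (N + 1)) ℂ)) (hS : ∀ g ∈ S, ∃ e : ℕ, g.IsHomogeneous e)
    (E : Set (Fin (N + 1) → ℂ)) (hEfin : E.Finite)
    (hE : ∀ z : Fin (N + 1) → ℂ, z ≠ 0 →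
      (∃ m, 0 < m ∧ ∀ t : ℕ, ∀ g ∈ S, eval ((pt f)^[m * t] z) g = 0) →
      (∃ w ∈ E, ∃ c : ℂ, z = c • w) ∧ ∃ n₀, ∀ n, n₀ ≤ n → (jac f ((pt f)^[n] z)).det ≠ 0)
    (a : Fin (N + 1) → ℂ) (ha : a ≠ 0) :
    (∃ T : Finset (ℕ × ℕ), {n : ℕ | ∀ g ∈ S, eval ((pt f)^[n] a) g = 0} =
      {n : ℕ | ∃ q ∈ T, ∃ m : ℕ, n = q.1 * m + q.2}) ∨
    ExpSparse {n : ℕ | ∀ g ∈ S, eval ((pt f)^[n] a) g = 0} := by
  classical
  -- the trapped points
  let Tr : Set (Fin (N + 1) → ℂ) :=
    {z | z ≠ 0 ∧ ∃ m, 0 < m ∧ ∀ t : ℕ, ∀ g ∈ S, eval ((pt f)^[m * t] z) g = 0}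
  have hsc : ∀ (c : ℂ) (z : Fin (N + 1) → ℂ) (n : ℕ),
      (pt f)^[n] (c • z) = c ^ d ^ n • (pt f)^[n] z := by
    intro c z n
    have := iterate_scale f d hf c z n
    exact this
  have hevsc : ∀ g ∈ S, ∀ (c : ℂ) (z : Fin (N + 1) → ℂ), eval z g = 0 → eval (c • z) g = 0 := by
    intro g hg c z hz
    obtain ⟨e, he⟩ := hS g hg
    have := eval_scale g e he c z
    rw [hz, mul_zero] at this
    exact this
  have hne : ∀ z : Fin (N + 1) → ℂ, z ≠ 0 → ∀ n, (pt f)^[n] z ≠ 0 := fun z hz n =>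
    pt_ne_zero f h0 z hz n
  have hTrsc : ∀ (c : ℂ), c ≠ 0 → ∀ z, z ∈ Tr → c • z ∈ Tr := by
    rintro c hc z ⟨hz0, m, hm, hz⟩
    refine ⟨smul_ne_zero hc hz0, m, hm, fun t g hg => ?_⟩
    rw [hsc]
    exact hevsc g hg _ _ (hz t g hg)
  choose! m hm htrap using fun z (hz : z ∈ Tr) => hz.2
  -- bound for the periods of the points of E
  obtain ⟨M, hM⟩ : ∃ M, ∀ w ∈ E, m w ≤ M := by
    obtain ⟨M, hM⟩ := (hEfin.image m).bddAbove
    exact ⟨M, fun w hw => hM ⟨w, hw, rfl⟩⟩
  let U0 : Set (Fin (N + 1) → ℂ) := ⋃ i ∈ Finset.range M, (pt f)^[i] '' E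
  have hU0 : U0.Finite := Set.Finite.biUnion (Finset.finite_toSet _) fun i _ => hEfin.image _
  have hclaim : ∀ z ∈ Tr, ∀ n, ∃ v ∈ U0, ∃ c : ℂ, (pt f)^[n] z = c • v := by
    intro z hz n
    obtain ⟨⟨w, hwE, c, hzw⟩, -⟩ := hE z hz.1 hz.2
    have hc : c ≠ 0 := by
      rintro rfl
      exact hz.1 (by rw [hzw, zero_smul])
    have hw : w ∈ Tr := by
      have h1 := hTrsc c⁻¹ (inv_ne_zero hc) z hz
      rwa [hzw, smul_smul, inv_mul_cancel₀ hc, one_smul] at h1
    have hw' : (pt f)^[m w * (n / m w)] w ∈ Tr := by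
      refine ⟨hne w hw.1 _, m w, hm w hw, fun t g hg => ?_⟩
      rw [← Function.iterate_add_apply, ← Nat.mul_add]
      exact htrap w hw _ g hg
    obtain ⟨⟨w', hwE', c', hw''⟩, -⟩ := hE _ hw'.1 hw'.2
    refine ⟨(pt f)^[n % m w] w', ?_, c ^ d ^ n * c' ^ d ^ (n % m w), ?_⟩
    · rw [Set.mem_iUnion₂]
      refine ⟨n % m w, ?_, w', hwE', rfl⟩
      exact Finset.mem_range.2 ((Nat.mod_lt _ (hm w hw)).trans_le (hM w hwE))
    · rw [hzw, hsc, mul_smul]
      congr 1
      rw [← hsc, ← hw'', ← Function.iterate_add_apply, Nat.mod_add_div]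
  -- normalised vectors
  have hnz : ∀ v : Fin (N + 1) → ℂ, ∃ l : ℂ, v ≠ 0 → l ≠ 0 ∧ ∃ j, v j = l := by
    intro v
    by_cases hv : v = 0
    · exact ⟨0, fun h => absurd hv h⟩
    · obtain ⟨j, hj⟩ := Function.ne_iff.1 hv
      exact ⟨v j, fun _ => ⟨hj, j, rfl⟩⟩
  choose nz hnz using hnz
  let U : Set (Fin (N + 1) → ℂ) := (fun v => (nz v)⁻¹ • v) '' U0
  have hU : U.Finite := hU0.image _
  have hclaimU : ∀ z ∈ Tr, ∀ n, ∃ v ∈ U, ∃ c : ℂ, (pt f)^[n] z = c • v ∧ ∃ j, v j = 1 := by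
    intro z hz n
    obtain ⟨v, hv, c, hcv⟩ := hclaim z hz n
    have hv0 : v ≠ 0 := by
      rintro rfl
      exact hne z hz.1 n (by rw [hcv, smul_zero])
    obtain ⟨h1, j, hj⟩ := hnz v hv0
    refine ⟨(nz v)⁻¹ • v, ⟨v, hv, rfl⟩, c * nz v, ?_, j, ?_⟩
    · rw [hcv, smul_smul, mul_assoc, mul_inv_cancel₀ h1, mul_one]
    · rw [Pi.smul_apply, smul_eq_mul, hj, inv_mul_cancel₀ h1]
  -- the finite set of numbers
  choose Mj A hA using exists_null f h0
  let s1 : Set ℂ := ⋃ i, (fun κ => (f i).coeff κ) '' ((f i).support : Set (Fin (N + 1) →₀ ℕ))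
  let s2 : Set ℂ := ⋃ j, ⋃ i,
    (fun κ => (A j i).coeff κ) '' ((A j i).support : Set (Fin (N + 1) →₀ ℕ))
  let s3 : Set ℂ := ⋃ i : Fin (N + 1), (fun v : Fin (N + 1) → ℂ => v i) '' U
  let s4 : Set ℂ := (fun v : Fin (N + 1) → ℂ => ((jac f v).det)⁻¹) '' U
  have hs : (s1 ∪ s2 ∪ s3 ∪ s4).Finite := by
    refine (((Set.finite_iUnion fun i => ((f i).support.finite_toSet).image _).union
      (Set.finite_iUnion fun j => Set.finite_iUnion fun i =>
        ((A j i).support.finite_toSet).image _)).union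
        (Set.finite_iUnion fun i => hU.image _)).union (hU.image _)
  obtain ⟨N₀, hN₀⟩ := emb_finite hs.toFinset
  obtain ⟨p, hpN, hp⟩ := Nat.exists_infinite_primes (N₀ + 1)
  have : Fact p.Prime := ⟨hp⟩
  obtain ⟨τ, hτ⟩ := hN₀ p (by omega)
  have hτ' : ∀ x ∈ s1 ∪ s2 ∪ s3 ∪ s4, ‖τ x‖ ≤ 1 := fun x hx => hτ x (hs.mem_toFinset.2 hx)
  -- lifts
  have hcoeff : ∀ i κ, ‖(map (τ : ℂ →+* PadicAlgCl p) (f i)).coeff κ‖ ≤ 1 := by
    intro i κ
    rw [coeff_map]
    by_cases h : κ ∈ (f i).support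
    · apply hτ'
      left; left; left
      rw [Set.mem_iUnion]
      exact ⟨i, κ, h, rfl⟩
    · rw [notMem_support_iff.1 h, map_zero, norm_zero]
      exact zero_le_one
  have hcoeffA : ∀ j i κ, ‖(map (τ : ℂ →+* PadicAlgCl p) (A j i)).coeff κ‖ ≤ 1 := by
    intro j i κ
    rw [coeff_map]
    by_cases h : κ ∈ (A j i).support
    · apply hτ'
      left; left; right
      rw [Set.mem_iUnion₂]
      exact ⟨j, i, κ, h, rfl⟩
    · rw [notMem_support_iff.1 h, map_zero, norm_zero]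
      exact zero_le_one
  choose F hF using fun i => exists_lift _ (hcoeff i)
  choose B hB using fun j i => exists_lift _ (hcoeffA j i)
  have hnull : ∀ j, ∑ i, B j i * F i = X j ^ Mj j := by
    intro j
    apply map_injective (unitBall (PadicAlgCl p)).subtype Subtype.val_injective
    rw [map_sum, map_pow, map_X]
    have h1 := congrArg (map (τ : ℂ →+* PadicAlgCl p)) (hA j)
    rw [map_sum, map_pow, map_X] at h1
    rw [← h1]
    apply Finset.sum_congr rfl
    intro i _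
    rw [map_mul, map_mul, hF, hB]
  have h1 : ∀ x : Fin (N + 1) → ResF (PadicAlgCl p),
      (∀ i, eval x (map (res (PadicAlgCl p)) (F i)) = 0) → x = 0 := by
    intro x hx
    funext j
    have h2 := congrArg (fun P => eval x (map (res (PadicAlgCl p)) P)) (hnull j)
    simp only [map_sum, map_mul, map_pow, map_X, eval_X, hx, mul_zero,
      Finset.sum_const_zero] at h2
    have h3 : Mj j ≠ 0 := by
      intro h3
      rw [h3, pow_zero] at h2
      exact absurd h2 zero_ne_one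
    exact (pow_eq_zero_iff h3).1 h2.symm
  -- the starting point
  have htaune : (fun i => τ (a i)) ≠ 0 := by
    intro h2
    apply ha
    funext i
    have := congrFun h2 i
    exact (map_eq_zero τ).1 this
  obtain ⟨c, b, hc, hb, hbres⟩ := exists_primitive (fun i => τ (a i)) htaune
  have hmap : ∀ (x : Fin (N + 1) → unitBall (PadicAlgCl p)) (z : Fin (N + 1) → ℂ)
      (c : PadicAlgCl p), (∀ i, (x i : PadicAlgCl p) = c * τ (z i)) →
      ∀ n i, (((pt F)^[n] x i : unitBall (PadicAlgCl p)) : PadicAlgCl p) =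
        c ^ d ^ n * τ ((pt f)^[n] z i) := by
    intro x z c hxz n i
    have e1 := pt_map (unitBall (PadicAlgCl p)).subtype F x n
    have e2 := pt_map (τ : ℂ →+* PadicAlgCl p) f z n
    have e3 : (fun i => (unitBall (PadicAlgCl p)).subtype (x i)) =
        fun i => c * (τ : ℂ →+* PadicAlgCl p) (z i) := funext hxz
    have e4 : (fun i => map (unitBall (PadicAlgCl p)).subtype (F i)) =
        fun i => map (τ : ℂ →+* PadicAlgCl p) (f i) := funext hF
    have e5 := iterate_scale (fun i => map (τ : ℂ →+* PadicAlgCl p) (f i)) d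
      (fun i => (hf i).map _) c (fun i => (τ : ℂ →+* PadicAlgCl p) (z i)) n
    rw [e3, e4, e5, e2] at e1
    exact (congrFun e1 i).symm
  have hev : ∀ (z : Fin (N + 1) → ℂ) (g : MvPolynomial (Fin (N + 1)) ℂ),
      eval (fun i => τ (z i)) (map (τ : ℂ →+* PadicAlgCl p) g) = τ (eval z g) := by
    intro z g
    rw [eval_map]
    have h := eval₂_comp_left (τ : ℂ →+* PadicAlgCl p) (RingHom.id _) z g
    rw [RingHom.comp_id] at h
    exact h.symm
  have hret : ∀ (x : Fin (N + 1) → unitBall (PadicAlgCl p)) (z : Fin (N + 1) → ℂ)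
      (c : PadicAlgCl p), c ≠ 0 → (∀ i, (x i : PadicAlgCl p) = c * τ (z i)) →
      ∀ n, (∀ P ∈ (fun g => map (τ : ℂ →+* PadicAlgCl p) g) '' S,
        eval (fun i => (((pt F)^[n] x i : unitBall (PadicAlgCl p)) : PadicAlgCl p)) P = 0) ↔
        ∀ g ∈ S, eval ((pt f)^[n] z) g = 0 := by
    intro x z c hc hxz n
    have e1 : (fun i => (((pt F)^[n] x i : unitBall (PadicAlgCl p)) : PadicAlgCl p)) =
        fun i => c ^ d ^ n * τ ((pt f)^[n] z i) := funext (hmap x z c hxz n)
    rw [e1]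
    have e2 : ∀ g ∈ S, (eval (fun i => c ^ d ^ n * τ ((pt f)^[n] z i))
        (map (τ : ℂ →+* PadicAlgCl p) g) = 0 ↔ eval ((pt f)^[n] z) g = 0) := by
      intro g hg
      obtain ⟨e, he⟩ := hS g hg
      rw [eval_scale _ e (he.map (τ : ℂ →+* PadicAlgCl p)), hev, mul_eq_zero, map_eq_zero]
      constructor
      · rintro (h | h)
        · exact absurd h (pow_ne_zero _ (pow_ne_zero _ hc))
        · exact h
      · exact Or.inr
    constructor
    · intro h g hg
      exact (e2 g hg).1 (h _ ⟨g, hg, rfl⟩)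
    · rintro h _ ⟨g, hg, rfl⟩
      exact (e2 g hg).2 (h g hg)
  have hset : {n : ℕ | ∀ P ∈ (fun g => map (τ : ℂ →+* PadicAlgCl p) g) '' S,
        eval (fun i => (((pt F)^[n] b i : unitBall (PadicAlgCl p)) : PadicAlgCl p)) P = 0} =
      {n : ℕ | ∀ g ∈ S, eval ((pt f)^[n] a) g = 0} := by
    ext n
    exact hret b a c hc hb n
  rcases gap_or_shadow p F b ((fun g => map (τ : ℂ →+* PadicAlgCl p) g) '' S) with h | h
  · right
    rwa [hset] at h
  · left
    obtain ⟨n0, k, y, hk, hy, hres⟩ := h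
    -- the complex point
    let z : Fin (N + 1) → ℂ := fun i => τ.symm (y i)
    have hyz : ∀ i, (y i : PadicAlgCl p) = 1 * τ (z i) := fun i => by
      rw [one_mul]
      exact (τ.apply_symm_apply _).symm
    have hyres : (fun i => res (PadicAlgCl p) (y i)) ≠ 0 := by
      have h2 : (fun i => res (PadicAlgCl p) (y i)) =
          fun i => res (PadicAlgCl p) ((pt F)^[n0] b i) := funext hres
      rw [h2, ← pt_map]
      exact pt_ne_zero _ h1 _ hbres n0
    have hz0 : z ≠ 0 := by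
      intro h2
      apply hyres
      funext i
      have h3 : y i = 0 := by
        apply Subtype.ext
        rw [hyz i, h2]
        simp
      rw [h3, map_zero]
      rfl
    have hz : z ∈ Tr := ⟨hz0, k, hk, fun t => (hret y z 1 one_ne_zero hyz (k * t)).1 (hy t)⟩
    obtain ⟨-, m₀, hm₀⟩ := hE z hz.1 hz.2
    have hunit : ∀ n, m₀ ≤ n → IsUnit (jac F ((pt F)^[n] y)).det := by
      intro n hn
      rw [unitBall_isUnit_iff]
      have e1 : (((jac F ((pt F)^[n] y)).det : unitBall (PadicAlgCl p)) : PadicAlgCl p) =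
          τ ((jac f ((pt f)^[n] z)).det) := by
        have e2 := jac_map (unitBall (PadicAlgCl p)).subtype F ((pt F)^[n] y)
        have e3 := jac_map (τ : ℂ →+* PadicAlgCl p) f ((pt f)^[n] z)
        have e4 : (fun i => map (unitBall (PadicAlgCl p)).subtype (F i)) =
          fun i => map (τ : ℂ →+* PadicAlgCl p) (f i) := funext hF
        have e5 : (fun i => (unitBall (PadicAlgCl p)).subtype ((pt F)^[n] y i)) =
            fun i => (τ : ℂ →+* PadicAlgCl p) ((pt f)^[n] z i) := funext fun i => by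
          have := hmap y z 1 hyz n i
          rw [one_pow, one_mul] at this
          exact this
        rw [e4, e5, e3] at e2
        have e6 := congrArg Matrix.det e2
        rw [← RingHom.map_det, ← RingHom.map_det] at e6
        exact e6.symm
      obtain ⟨v, hvU, l, hl, j, hj⟩ := hclaimU z hz n
      have hyn : ∀ i, (((pt F)^[n] y i : unitBall (PadicAlgCl p)) : PadicAlgCl p) =
          τ l * τ (v i) := by
        intro i
        rw [hmap y z 1 hyz n i, one_pow, one_mul, hl, Pi.smul_apply, smul_eq_mul, map_mul]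
      have hvi : ∀ i, ‖τ (v i)‖ ≤ 1 := fun i => hτ' _ (by
        left; right
        rw [Set.mem_iUnion]
        exact ⟨i, v, hvU, rfl⟩)
      have hl1 : ‖τ l‖ = 1 := by
        apply le_antisymm
        · have h2 := unitBall_norm_le ((pt F)^[n] y j)
          rw [hyn, hj, map_one, mul_one] at h2
          exact h2
        · have h2 := pt_ne_zero _ h1 _ hyres n
          rw [pt_map] at h2
          obtain ⟨i, hi⟩ := Function.ne_iff.1 h2
          have h3 := (unitBall_isUnit_iff _).1 (isUnit_of_res_ne_zero _ hi)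
          rw [hyn, norm_mul] at h3
          rw [← h3]
          calc ‖τ l‖ * ‖τ (v i)‖ ≤ ‖τ l‖ * 1 :=
                mul_le_mul_of_nonneg_left (hvi i) (norm_nonneg _)
            _ = ‖τ l‖ := mul_one _
      have hdet1 : (jac f ((pt f)^[n] z)).det = (l ^ (d - 1)) ^ (N + 1) * (jac f v).det := by
        rw [hl]
        exact jac_scale f d hf l v
      have hne' := hm₀ n hn
      have hvdet : (jac f v).det ≠ 0 := by
        intro h2
        apply hne'
        rw [hdet1, h2, mul_zero]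
      have h5 : ‖τ ((jac f ((pt f)^[n] z)).det)‖ = ‖τ ((jac f v).det)‖ := by
        rw [hdet1, map_mul, map_pow, map_pow, norm_mul, norm_pow, norm_pow, hl1, one_pow, one_pow,
          one_mul]
      rw [e1]
      have h2 : ‖τ ((jac f v).det)⁻¹‖ ≤ 1 := hτ' _ (by
        right; exact ⟨_, hvU, rfl⟩)
      have h3 : ‖τ ((jac f ((pt f)^[n] z)).det)‖ ≤ 1 := by
        rw [← e1]
        exact unitBall_norm_le _
      rw [map_inv₀, norm_inv] at h2
      have h4 : 0 < ‖τ ((jac f v).det)‖ :=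
        norm_pos_iff.2 ((map_ne_zero τ).2 hvdet)
      rw [h5] at h3 ⊢
      exact le_antisymm h3 ((inv_le_one₀ h4).1 h2)
    have hdet := unit_transfer p F b y n0 m₀ hres hunit
    obtain ⟨n1, k1, hk1, hret1⟩ := return_set p F b (n0 + m₀) hdet
    apply exists_progressions _ n1 k1 hk1
    intro r hinf t
    have h6 := hret1 ((fun g => map (τ : ℂ →+* PadicAlgCl p) g) '' S) r
    have h2 : ∀ n, (∀ P ∈ (fun g => map (τ : ℂ →+* PadicAlgCl p) g) '' S,
        eval (fun i => (((pt F)^[n] b i : unitBall (PadicAlgCl p)) : PadicAlgCl p)) P = 0) ↔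
        ∀ g ∈ S, eval ((pt f)^[n] a) g = 0 := hret b a c hc hb
    simp only [h2] at h6
    exact h6 hinf t

end Pool.Agent.R847.Gap
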