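import Pool.Agent.R847.Gap.Idem
import Pool.Agent.R847.Gap.Newton

set_option autoImplicit false

/-! Shadow orbits: the orbit of a point under a map which is idempotent modulo `p²` is
exponentially near to an orbit which is `p`-adically analytic in the time. -/

namespace Pool.Agent.R847.Gap

open MvPolynomial Pool.Agent.H936R2 Filter Topology

variable {ι : Type} [Fintype ι] [DecidableEq ι]

section div

variable {O : Type} [CommRing O]

omit [Fintype ι] [DecidableEq ι] in
/-- The difference operator. -/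
lemma diff_pow_dvd (π : O) (T : MvPolynomial ι O →ₐ[O] MvPolynomial ι O)
    (hT : ∀ q, Cong π (T (T q)) (T q)) (k : ℕ) :
    ∀ n j q, k ≤ n → k ≤ j → ∃ r, (fun q => T q - q)^[j] (T^[n] q) = C (π ^ k) * r := by
  have hDC : ∀ (c : O) (j : ℕ) (q : MvPolynomial ι O),
      (fun q => T q - q)^[j] (C c * q) = C c * (fun q => T q - q)^[j] q := by
    intro c j
    induction j with
    | zero => intro q; rfl
    | succ j ih =>
      intro q
      rw [Function.iterate_succ_apply, Function.iterate_succ_apply]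
      have h1 : T (C c * q) - C c * q = C c * (T q - q) := by
        rw [map_mul, show T (C c) = C c from T.commutes c]
        ring
      rw [h1, ih]
  have hTC : ∀ (c : O) (n : ℕ) (q : MvPolynomial ι O), T^[n] (C c * q) = C c * T^[n] q := by
    intro c n
    induction n with
    | zero => intro q; rfl
    | succ n ih =>
      intro q
      rw [Function.iterate_succ_apply, Function.iterate_succ_apply, map_mul,
        show T (C c) = C c from T.commutes c, ih]
  have hcomm : ∀ (n : ℕ) (q : MvPolynomial ι O), T (T^[n] q) - T^[n] q = T^[n] (T q - q) := by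
    intro n
    induction n with
    | zero => intro q; rfl
    | succ n ih =>
      intro q
      rw [Function.iterate_succ_apply, Function.iterate_succ_apply, ih, map_sub]
  induction k with
  | zero => intro n j q _ _; exact ⟨(fun q => T q - q)^[j] (T^[n] q), by simp⟩
  | succ k ih =>
    intro n j q hn hj
    obtain ⟨n', rfl⟩ : ∃ n', n = n' + 1 := ⟨n - 1, by omega⟩
    obtain ⟨j', rfl⟩ : ∃ j', j = j' + 1 := ⟨j - 1, by omega⟩
    obtain ⟨r, hr⟩ := hT q
    rw [Function.iterate_succ_apply, Function.iterate_succ_apply, hcomm n' (T q), hr, hTC, hDC]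
    obtain ⟨r', hr'⟩ := ih n' j' r (by omega) (by omega)
    refine ⟨r', ?_⟩
    rw [hr', pow_succ, map_mul, ← mul_assoc, mul_comm (C π), map_pow]

omit [Fintype ι] [DecidableEq ι] in
lemma valSeq_eq_iterate (h : ι → MvPolynomial ι O) (u : ι → O) (q : MvPolynomial ι O) (n : ℕ) :
    valSeq h u q n = eval u ((aeval h : MvPolynomial ι O →ₐ[O] MvPolynomial ι O)^[n] q) := by
  induction n generalizing q with
  | zero => rfl
  | succ n ih =>
    rw [Function.iterate_succ_apply, ← ih, valSeq, valSeq, Function.iterate_succ_apply']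
    rw [eval_aeval_poly]
    rfl

lemma valSeq_fwdDiff_iterate (h : ι → MvPolynomial ι O) (u : ι → O) (j : ℕ) :
    ∀ q : MvPolynomial ι O, (fwdDiff 1)^[j] (valSeq h u q) =
      valSeq h u ((fun q => aeval h q - q)^[j] q) := by
  induction j with
  | zero => intro q; rfl
  | succ j ih =>
    intro q
    rw [Function.iterate_succ_apply, Function.iterate_succ_apply, valSeq_fwdDiff, ih]

omit [Fintype ι] [DecidableEq ι] in
lemma diff_comm (T : MvPolynomial ι O →ₐ[O] MvPolynomial ι O) (j n : ℕ) :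
    ∀ q, (fun q => T q - q)^[j] (T^[n] q) = T^[n] ((fun q => T q - q)^[j] q) := by
  have hcomm : ∀ (n : ℕ) (q : MvPolynomial ι O), T (T^[n] q) - T^[n] q = T^[n] (T q - q) := by
    intro n
    induction n with
    | zero => intro q; rfl
    | succ n ih =>
      intro q
      rw [Function.iterate_succ_apply, Function.iterate_succ_apply, ih, map_sub]
  induction j with
  | zero => intro q; rfl
  | succ j ih =>
    intro q
    rw [Function.iterate_succ_apply, Function.iterate_succ_apply, hcomm, ih]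

/-- The differences of the values of a polynomial along the orbit are highly divisible. -/
lemma valSeq_diff_dvd (π : O) (H : ι → MvPolynomial ι O)
    (hH : IdemMod π H) (u : ι → O) (q : MvPolynomial ι O)
    (k n j : ℕ) (hn : k ≤ n) (hj : k ≤ j) :
    ∃ z, (fwdDiff 1)^[j] (valSeq H u q) n = π ^ k * z := by
  obtain ⟨r, hr⟩ := diff_pow_dvd π (aeval H) hH k n j q hn hj
  refine ⟨eval u r, ?_⟩
  rw [valSeq_fwdDiff_iterate, valSeq_eq_iterate, ← diff_comm, hr, map_mul, eval_C]

end div

section norms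

variable (p : ℕ) [hp : Fact p.Prime]

lemma norm_pi_pow_mul (k : ℕ) (z : unitBall (PadicAlgCl p)) :
    ‖((((p : unitBall (PadicAlgCl p)) ^ 2) ^ k * z : unitBall (PadicAlgCl p)) : PadicAlgCl p)‖ ≤
      ‖(p : PadicAlgCl p)‖ ^ (2 * k) := by
  push_cast
  rw [norm_mul, norm_pow, norm_pow, ← pow_mul]
  calc ‖(p : PadicAlgCl p)‖ ^ (2 * k) * ‖(z : PadicAlgCl p)‖ ≤ ‖(p : PadicAlgCl p)‖ ^ (2 * k) * 1 :=
        mul_le_mul_of_nonneg_left (unitBall_norm_le z) (by positivity)
    _ = _ := mul_one _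

lemma norm_p_pow_le_natCast (j : ℕ) (hj : 0 < j) :
    ‖(p : PadicAlgCl p)‖ ^ j ≤ ‖((j : ℕ) : PadicAlgCl p)‖ := by
  have h1 := norm_prime_pow_le_factorial (K := PadicAlgCl p) p (norm_p_lt p) j
  refine h1.trans ?_
  have h2 : j.factorial = j * (j - 1).factorial := (Nat.mul_factorial_pred (by omega)).symm
  rw [h2]
  push_cast
  rw [norm_mul]
  calc _ ≤ ‖(j : PadicAlgCl p)‖ * 1 := mul_le_mul_of_nonneg_left
        (IsUltrametricDist.norm_natCast_le_one (PadicAlgCl p) _) (norm_nonneg _)
    _ = _ := mul_one _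

/-- Almost periodicity of the values. -/
lemma valSeq_shift (H : ι → MvPolynomial ι (unitBall (PadicAlgCl p)))
    (hH : IdemMod ((p : unitBall (PadicAlgCl p)) ^ 2) H)
    (u : ι → unitBall (PadicAlgCl p)) (q : MvPolynomial ι (unitBall (PadicAlgCl p))) (n c : ℕ) :
    ‖((valSeq H u q (n + p ^ c) : unitBall (PadicAlgCl p)) : PadicAlgCl p) - valSeq H u q n‖ ≤
      max (‖(p : PadicAlgCl p)‖ ^ c) (‖(p : PadicAlgCl p)‖ ^ (2 * n)) := by
  have hp0 := norm_p_pos p
  have hp1 := norm_p_lt p
  have h1 := shift_eq_sum_fwdDiff_iter (1 : ℕ) (valSeq H u q) (p ^ c) n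
  simp only [smul_eq_mul, mul_one] at h1
  rw [Finset.sum_range_succ'] at h1
  simp only [Function.iterate_zero, id_eq, Nat.choose_zero_right, one_smul] at h1
  have h2 : ((valSeq H u q (n + p ^ c) : unitBall (PadicAlgCl p)) : PadicAlgCl p) -
      valSeq H u q n = ∑ j ∈ Finset.range (p ^ c),
        (((p ^ c).choose (j + 1) : ℕ) : PadicAlgCl p) *
          (((fwdDiff 1)^[j + 1] (valSeq H u q) n : unitBall (PadicAlgCl p)) : PadicAlgCl p) := by
    rw [h1]
    push_cast
    rw [add_sub_cancel_right]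
    apply Finset.sum_congr rfl
    intro j _
    rw [nsmul_eq_mul]
  rw [h2]
  apply IsUltrametricDist.norm_sum_le_of_forall_le_of_nonneg (by positivity)
  intro j _
  rw [norm_mul]
  by_cases hj : j + 1 ≤ n
  · apply le_max_of_le_left
    obtain ⟨z, hz⟩ := valSeq_diff_dvd _ H hH u q (j + 1) n (j + 1) hj le_rfl
    rw [hz]
    have h3 := norm_pi_pow_mul p (j + 1) z
    have h4 := norm_p_pow_le_natCast p (j + 1) (by omega)
    have h5 : ‖(((p ^ c).choose (j + 1) : ℕ) : PadicAlgCl p)‖ * ‖((j + 1 : ℕ) : PadicAlgCl p)‖ ≤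
        ‖(p : PadicAlgCl p)‖ ^ c := by
      have h6 : p ^ c - 1 + 1 = p ^ c := Nat.succ_pred_eq_of_pos (pow_pos hp.out.pos _)
      have h7 := Nat.add_one_mul_choose_eq (p ^ c - 1) j
      rw [h6] at h7
      have h8 := congrArg (Nat.cast : ℕ → PadicAlgCl p) h7
      rw [Nat.cast_mul, Nat.cast_mul] at h8
      rw [← norm_mul, ← h8, norm_mul, Nat.cast_pow, norm_pow]
      calc _ ≤ ‖(p : PadicAlgCl p)‖ ^ c * 1 := mul_le_mul_of_nonneg_left
            (IsUltrametricDist.norm_natCast_le_one (PadicAlgCl p) _) (by positivity)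
        _ = _ := mul_one _
    calc ‖(((p ^ c).choose (j + 1) : ℕ) : PadicAlgCl p)‖ * _
        ≤ ‖(((p ^ c).choose (j + 1) : ℕ) : PadicAlgCl p)‖ * ‖(p : PadicAlgCl p)‖ ^ (2 * (j + 1)) :=
          mul_le_mul_of_nonneg_left h3 (norm_nonneg _)
      _ = ‖(((p ^ c).choose (j + 1) : ℕ) : PadicAlgCl p)‖ * ‖(p : PadicAlgCl p)‖ ^ (j + 1) *
          ‖(p : PadicAlgCl p)‖ ^ (j + 1) := by ring
      _ ≤ ‖(((p ^ c).choose (j + 1) : ℕ) : PadicAlgCl p)‖ * ‖((j + 1 : ℕ) : PadicAlgCl p)‖ * 1 := by
          apply mul_le_mul _ (pow_le_one₀ hp0.le hp1.le) (by positivity) (by positivity)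
          exact mul_le_mul_of_nonneg_left h4 (norm_nonneg _)
      _ ≤ _ := by rw [mul_one]; exact h5
  · apply le_max_of_le_right
    obtain ⟨z, hz⟩ := valSeq_diff_dvd _ H hH u q n n (j + 1) le_rfl (by omega)
    rw [hz]
    have h3 := norm_pi_pow_mul p n z
    calc ‖(((p ^ c).choose (j + 1) : ℕ) : PadicAlgCl p)‖ * _
        ≤ 1 * ‖(p : PadicAlgCl p)‖ ^ (2 * n) := mul_le_mul
          (IsUltrametricDist.norm_natCast_le_one (PadicAlgCl p) _) h3 (norm_nonneg _) zero_le_one
      _ = _ := one_mul _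

/-- The shadow point: it has the orbit which is analytic in the time and exponentially near. -/
theorem exists_shadow (H : ι → MvPolynomial ι (unitBall (PadicAlgCl p)))
    (hH : IdemMod ((p : unitBall (PadicAlgCl p)) ^ 2) H) (u : ι → unitBall (PadicAlgCl p)) :
    ∃ y : ι → unitBall (PadicAlgCl p), ∀ q : MvPolynomial ι (unitBall (PadicAlgCl p)),
      (∀ n, ‖((valSeq H u q n : unitBall (PadicAlgCl p)) : PadicAlgCl p) - valSeq H y q n‖ ≤
        ‖(p : PadicAlgCl p)‖ ^ (2 * n)) ∧
      ∀ j, ‖(((fwdDiff 1)^[j] (valSeq H y q) 0 : unitBall (PadicAlgCl p)) : PadicAlgCl p)‖ ≤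
        ‖(p : PadicAlgCl p)‖ ^ (2 * j) := by
  classical
  have hp0 := norm_p_pos p
  have hp1 := norm_p_lt p
  obtain ⟨L, hL, horb⟩ := orbit_finiteDimensional p H u
  have : ProperSpace L := FiniteDimensional.proper ℚ_[p] L
  let x : ℕ → ι → L := fun c j => ⟨_, horb (p ^ c) j⟩
  have hx : ∀ c, x c ∈ Metric.closedBall (0 : ι → L) 1 := by
    intro c
    rw [mem_closedBall_zero_iff, pi_norm_le_iff_of_nonneg zero_le_one]
    intro j
    exact unitBall_norm_le ((pt H)^[p ^ c] u j)
  obtain ⟨Y, hY, φ, hφ, hlim⟩ := (isCompact_closedBall (0 : ι → L) 1).tendsto_subseq hx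
  rw [mem_closedBall_zero_iff, pi_norm_le_iff_of_nonneg zero_le_one] at hY
  let y : ι → unitBall (PadicAlgCl p) := fun i => ⟨(Y i : PadicAlgCl p), hY i⟩
  have hlim' : Tendsto (fun c => (pt H)^[p ^ φ c] u) atTop (𝓝 y) := by
    rw [tendsto_pi_nhds]
    intro i
    rw [tendsto_subtype_rng]
    have h1 := (continuous_subtype_val.tendsto _).comp ((tendsto_pi_nhds.1 hlim) i)
    exact h1
  have hval : ∀ (q : MvPolynomial ι (unitBall (PadicAlgCl p))) n,
      Tendsto (fun c => valSeq H u q (n + p ^ φ c)) atTop (𝓝 (valSeq H y q n)) := by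
    intro q n
    have hcont : Continuous (fun v : ι → unitBall (PadicAlgCl p) => eval ((pt H)^[n] v) q) := by
      have h1 : Continuous (pt H) := by
        apply continuous_pi
        intro i
        exact MvPolynomial.continuous_eval _
      exact (MvPolynomial.continuous_eval _).comp (h1.iterate n)
    have h2 := (hcont.tendsto y).comp hlim'
    refine h2.congr fun c => ?_
    simp only [Function.comp_apply, valSeq]
    rw [← Function.iterate_add_apply]
  refine ⟨y, fun q => ⟨fun n => ?_, fun j => ?_⟩⟩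
  · have h1 : Tendsto (fun c => ‖((valSeq H u q (n + p ^ φ c) : unitBall (PadicAlgCl p)) :
        PadicAlgCl p) - valSeq H u q n‖) atTop
        (𝓝 ‖((valSeq H y q n : unitBall (PadicAlgCl p)) : PadicAlgCl p) - valSeq H u q n‖) :=
      (((continuous_subtype_val.tendsto _).comp (hval q n)).sub_const _).norm
    rw [norm_sub_rev]
    refine le_of_tendsto h1 ?_
    obtain ⟨m, hm⟩ := exists_pow_lt_of_lt_one (show 0 < ‖(p : PadicAlgCl p)‖ ^ (2 * n) by positivity)
      hp1
    filter_upwards [eventually_ge_atTop m] with c hc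
    refine (valSeq_shift p H hH u q n (φ c)).trans (max_le ?_ le_rfl)
    refine le_trans ?_ hm.le
    exact pow_le_pow_of_le_one hp0.le hp1.le (hc.trans (hφ.le_apply))
  · have h1 := hval ((fun q => (aeval H : MvPolynomial ι (unitBall (PadicAlgCl p)) →ₐ[_]
        MvPolynomial ι (unitBall (PadicAlgCl p))) q - q)^[j] q) 0
    rw [← valSeq_fwdDiff_iterate, ← valSeq_fwdDiff_iterate] at h1
    have h2 : Tendsto (fun c => ‖(((fwdDiff 1)^[j] (valSeq H u q) (0 + p ^ φ c) :
        unitBall (PadicAlgCl p)) : PadicAlgCl p)‖) atTop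
        (𝓝 ‖(((fwdDiff 1)^[j] (valSeq H y q) 0 : unitBall (PadicAlgCl p)) : PadicAlgCl p)‖) :=
      ((continuous_subtype_val.tendsto _).comp h1).norm
    refine le_of_tendsto h2 ?_
    filter_upwards [eventually_ge_atTop j] with c hc
    have h3 : j ≤ 0 + p ^ φ c := by
      have h4 : j ≤ φ c := hc.trans hφ.le_apply
      have h5 : φ c < p ^ φ c := Nat.lt_pow_self hp.out.one_lt
      omega
    obtain ⟨z, hz⟩ := valSeq_diff_dvd _ H hH u q j (0 + p ^ φ c) j h3 le_rfl
    rw [hz]
    exact norm_pi_pow_mul p j z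

end norms

end Pool.Agent.R847.Gap
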